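import Mathlib

/-!
Transcendence rank of a set of elements of a field over a subfield (rank function of the matroid
of algebraic independence), and closure properties of algebraic closure.
-/

set_option autoImplicit false

namespace H450Al

open MvPolynomial Set

section
variable (k : Type*) {Ω : Type*} [Field k] [Field Ω] [Algebra k Ω]

/-- transcendence rank over `k` of a set of elements of `Ω` -/
noncomputable def rk (S : Set Ω) : ℕ∞ := (AlgebraicIndependent.matroid k Ω).eRk S

/-- the elements algebraic over `k(S)` -/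
noncomputable def cl (S : Set Ω) : Set Ω := (AlgebraicIndependent.matroid k Ω).closure S

theorem mem_cl {S : Set Ω} {a : Ω} : a ∈ cl k S ↔ IsAlgebraic (Algebra.adjoin k S) a := by
  unfold cl
  rw [AlgebraicIndependent.matroid_closure_eq]
  rfl

theorem subset_cl (S : Set Ω) : S ⊆ cl k S := by
  intro a ha
  rw [mem_cl]
  exact isAlgebraic_algebraMap (⟨a, Algebra.subset_adjoin ha⟩ : Algebra.adjoin k S)

theorem cl_mono {S T : Set Ω} (h : S ⊆ T) : cl k S ⊆ cl k T :=
  (AlgebraicIndependent.matroid k Ω).closure_subset_closure h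

theorem cl_cl_mono {S T : Set Ω} (h : S ⊆ cl k T) : cl k S ⊆ cl k T := by
  have := (AlgebraicIndependent.matroid k Ω).closure_subset_closure h
  unfold cl at *
  rwa [Matroid.closure_closure] at this

theorem rk_mono {S T : Set Ω} (h : S ⊆ cl k T) : rk k S ≤ rk k T := by
  unfold rk
  have h1 := (AlgebraicIndependent.matroid k Ω).eRk_mono h
  unfold cl at h1
  rwa [Matroid.eRk_closure_eq] at h1

theorem rk_mono' {S T : Set Ω} (h : S ⊆ T) : rk k S ≤ rk k T :=
  rk_mono k (h.trans (subset_cl k T))

theorem rk_union (S T : Set Ω) : rk k (S ∪ T) ≤ rk k S + rk k T :=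
  (AlgebraicIndependent.matroid k Ω).eRk_union_le_eRk_add_eRk S T

theorem rk_insert (S : Set Ω) (a : Ω) : rk k (insert a S) ≤ rk k S + 1 :=
  (AlgebraicIndependent.matroid k Ω).eRk_insert_le_add_one a S

theorem rk_insert_eq (S : Set Ω) (a : Ω) (h : a ∉ cl k S) : rk k (insert a S) = rk k S + 1 :=
  (AlgebraicIndependent.matroid k Ω).eRk_insert_eq_add_one ⟨by simp, h⟩

theorem rk_le_encard (S : Set Ω) : rk k S ≤ S.encard :=
  (AlgebraicIndependent.matroid k Ω).eRk_le_encard S

theorem rk_range_le {ι : Type*} [Fintype ι] (x : ι → Ω) : rk k (range x) ≤ Fintype.card ι := by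
  refine (rk_le_encard k _).trans ?_
  rw [← image_univ]
  refine (encard_image_le _ _).trans ?_
  simp

/-- the algebraic closure of `k(S)` as a subalgebra -/
noncomputable def clAlg (S : Set Ω) : Subalgebra k Ω where
  carrier := cl k S
  mul_mem' := by
    intro a b ha hb
    rw [mem_cl] at *
    exact ha.mul hb
  add_mem' := by
    intro a b ha hb
    rw [mem_cl] at *
    exact ha.add hb
  algebraMap_mem' := by
    intro r
    rw [mem_cl]
    exact isAlgebraic_algebraMap (algebraMap k (Algebra.adjoin k S) r)

theorem mem_clAlg {S : Set Ω} {a : Ω} : a ∈ clAlg k S ↔ a ∈ cl k S := Iff.rfl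

theorem inv_mem_cl {S : Set Ω} {a : Ω} (h : a ∈ cl k S) : a⁻¹ ∈ cl k S := by
  rw [mem_cl] at *
  exact h.inv

theorem aeval_mem_cl {ι : Type*} {S : Set Ω} {x : ι → Ω} (h : ∀ i, x i ∈ cl k S)
    (P : MvPolynomial ι k) : aeval x P ∈ cl k S := by
  rw [← mem_clAlg]
  have h1 : aeval x P ∈ (aeval x : MvPolynomial ι k →ₐ[k] Ω).range := ⟨P, rfl⟩
  rw [← Algebra.adjoin_range_eq_range_aeval] at h1
  refine (Algebra.adjoin_le ?_ : Algebra.adjoin k (range x) ≤ clAlg k S) h1
  rintro _ ⟨i, rfl⟩
  exact h i

/-- a nonzero polynomial relation lowers the rank -/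
theorem rk_lt_of_relation {n : ℕ} (x : Fin (n + 1) → Ω) (P : MvPolynomial (Fin (n + 1)) k)
    (hP : P ≠ 0) (h : aeval x P = 0) : rk k (range x) ≤ n := by
  by_contra hcon
  rw [not_le] at hcon
  have hge : ((n + 1 : ℕ) : ℕ∞) ≤ rk k (range x) := by
    push_cast
    exact Order.add_one_le_of_lt hcon
  have hfin : (range x).Finite := finite_range x
  have h1 : (range x).encard ≤ ((n + 1 : ℕ) : ℕ∞) := by
    rw [← image_univ]
    refine (encard_image_le _ _).trans ?_
    simp
  have hinj : Function.Injective x := by
    rw [← Set.injOn_univ]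
    apply Set.Finite.injOn_of_encard_image_eq (finite_univ)
    rw [image_univ]
    apply le_antisymm
    · refine h1.trans ?_
      simp
    · simp only [encard_univ, ENat.card_eq_coe_fintype_card, Fintype.card_fin]
      exact hge.trans (rk_le_encard k _)
  have hind : (AlgebraicIndependent.matroid k Ω).Indep (range x) := by
    rw [Matroid.indep_iff_eRk_eq_encard_of_finite hfin]
    apply le_antisymm
    · exact rk_le_encard k _
    · exact h1.trans hge
  rw [AlgebraicIndependent.matroid_indep_iff] at hind
  have hx : AlgebraicIndependent k x := by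
    have := (algebraicIndependent_subtype_range hinj).1 hind
    exact this
  exact hP (hx.eq_zero_of_aeval_eq_zero P h)

end

end H450Al
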