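import Mathlib
import Pool.Agent.H450R2.Al.Td

/-!
Isotropic vectors of maximal rank: a polynomial not divisible by the quadratic form does not vanish
at such a vector.  Roots of a polynomial along a line.
-/

set_option autoImplicit false

namespace H450Al

open MvPolynomial Set

/-- the quadratic form `x_1² + ... + x_d²` -/
noncomputable def Dq (k : Type*) [Field k] (d : ℕ) : MvPolynomial (Fin d) k := ∑ i, X i ^ 2

section
variable (k : Type*) {Ω : Type*} [Field k] [Field Ω] [Algebra k Ω]

theorem aeval_fin_succ {n : ℕ} (x : Fin (n + 1) → Ω) (F : MvPolynomial (Fin (n + 1)) k) :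
    aeval x F = Polynomial.eval₂ (aeval (fun i => x (Fin.succ i)) :
      MvPolynomial (Fin n) k →ₐ[k] Ω).toRingHom (x 0) (finSuccEquiv k n F) := by
  have h : (aeval x : MvPolynomial (Fin (n + 1)) k →ₐ[k] Ω).toRingHom =
      (Polynomial.eval₂RingHom (aeval (fun i => x (Fin.succ i)) :
      MvPolynomial (Fin n) k →ₐ[k] Ω).toRingHom (x 0)).comp
        ((finSuccEquiv k n) : _ →+* _) := by
    apply MvPolynomial.ringHom_ext
    · intro r
      simp [finSuccEquiv_apply]
    · intro i
      refine Fin.cases ?_ (fun j => ?_) i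
      · simp [finSuccEquiv_X_zero]
      · simp [finSuccEquiv_X_succ]
  exact congrArg (fun g => g F) h

/-- maximal rank isotropic vectors are generic points of the isotropic cone -/
theorem iso_lemma [Algebra k ℝ] {m : ℕ} (x : Fin (m + 2) → Ω) (hx : ∑ i, x i ^ 2 = 0)
    (F : MvPolynomial (Fin (m + 2)) k) (hF : aeval x F = 0) (hD : ¬ Dq k (m + 2) ∣ F) :
    rk k (range x) ≤ m := by
  by_contra hcon
  set x' : Fin (m + 1) → Ω := fun i => x (Fin.succ i) with hx'
  have hsum : x 0 ^ 2 + ∑ i, x' i ^ 2 = 0 := by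
    rw [Fin.sum_univ_succ] at hx
    exact hx
  have h0 : x 0 ∈ cl k (range x') := by
    have h1 : x 0 ^ 2 ∈ cl k (range x') := by
      have h2 : x 0 ^ 2 = aeval x' (-∑ i, X i ^ 2 : MvPolynomial (Fin (m + 1)) k) := by
        simp only [map_neg, map_sum, map_pow, aeval_X]
        linear_combination hsum
      rw [h2]
      exact aeval_mem_cl k (fun i => subset_cl k _ (mem_range_self i)) _
    rw [mem_cl] at h1 ⊢
    exact h1.of_pow (by norm_num)
  have hr : rk k (range x) ≤ rk k (range x') := by
    apply rk_mono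
    rintro _ ⟨i, rfl⟩
    refine Fin.cases h0 (fun j => ?_) i
    exact subset_cl k _ (mem_range_self j)
  have hgen : ∀ G : MvPolynomial (Fin (m + 1)) k, aeval x' G = 0 → G = 0 := by
    intro G hG
    by_contra hG0
    exact hcon (hr.trans (rk_lt_of_relation k x' G hG0 hG))
  -- division
  set c : MvPolynomial (Fin (m + 1)) k := ∑ i, X i ^ 2 with hc
  set M : Polynomial (MvPolynomial (Fin (m + 1)) k) := Polynomial.X ^ 2 + Polynomial.C c with hM
  have hMD : finSuccEquiv k (m + 1) (Dq k (m + 2)) = M := by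
    unfold Dq
    rw [Fin.sum_univ_succ, map_add, map_pow, finSuccEquiv_X_zero, map_sum]
    simp only [map_pow, finSuccEquiv_X_succ]
    rw [hM, hc, map_sum]
    simp
  have hmon : M.Monic := Polynomial.monic_X_pow_add_C c (by norm_num)
  set f := finSuccEquiv k (m + 1) F with hf
  have hdiv := Polynomial.modByMonic_add_div f M
  set r := f %ₘ M with hr'
  have hdeg : r.degree < 2 := by
    have h1 := Polynomial.degree_modByMonic_lt f hmon
    have h2 : M.degree = 2 := Polynomial.degree_X_pow_add_C (by norm_num) c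
    rw [h2] at h1
    exact h1
  have hrform : r = Polynomial.C (r.coeff 1) * Polynomial.X + Polynomial.C (r.coeff 0) := by
    apply Polynomial.eq_X_add_C_of_degree_le_one
    rw [Polynomial.degree_le_iff_coeff_zero]
    intro j hj
    refine (Polynomial.degree_lt_iff_coeff_zero r 2).1 hdeg j ?_
    have : (1 : ℕ) < j := by exact_mod_cast hj
    omega
  set φ := (aeval x' : MvPolynomial (Fin (m + 1)) k →ₐ[k] Ω).toRingHom with hφ
  have e1 : Polynomial.eval₂ φ (x 0) f = 0 := by
    rw [hf, hφ, ← aeval_fin_succ]; exact hF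
  have e2 : Polynomial.eval₂ φ (x 0) M = 0 := by
    rw [hM, Polynomial.eval₂_add, Polynomial.eval₂_pow, Polynomial.eval₂_X, Polynomial.eval₂_C]
    have : φ c = ∑ i, x' i ^ 2 := by
      change aeval x' c = _
      rw [hc]; simp
    rw [this]; exact hsum
  have e3 : Polynomial.eval₂ φ (x 0) r = 0 := by
    rw [← hdiv, Polynomial.eval₂_add, Polynomial.eval₂_mul, e2, zero_mul, add_zero] at e1
    exact e1
  have e4 : aeval x' (r.coeff 1) * x 0 + aeval x' (r.coeff 0) = 0 := by
    rw [hrform, Polynomial.eval₂_add, Polynomial.eval₂_mul, Polynomial.eval₂_C,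
      Polynomial.eval₂_X, Polynomial.eval₂_C] at e3
    exact e3
  have e5 : (r.coeff 0) ^ 2 + (r.coeff 1) ^ 2 * c = 0 := by
    apply hgen
    have h1 : aeval x' c = ∑ i, x' i ^ 2 := by rw [hc]; simp
    rw [map_add, map_mul, map_pow, map_pow, h1]
    linear_combination (aeval x' (r.coeff 0) - aeval x' (r.coeff 1) * x 0) * e4 +
      (aeval x' (r.coeff 1)) ^ 2 * hsum
  -- positivity
  have hinj : Function.Injective (MvPolynomial.map (σ := Fin (m + 1)) (algebraMap k ℝ)) :=
    map_injective _ (algebraMap k ℝ).injective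
  have e6 : ∀ y : Fin (m + 1) → ℝ, (aeval y (r.coeff 0)) ^ 2 +
      (aeval y (r.coeff 1)) ^ 2 * ∑ i, y i ^ 2 = 0 := by
    intro y
    have := congrArg (aeval y) e5
    rw [map_add, map_mul, map_pow, map_pow, map_zero] at this
    have h1 : aeval y c = ∑ i, y i ^ 2 := by rw [hc]; simp
    rw [h1] at this
    exact this
  have e7 : r.coeff 0 = 0 := by
    apply hinj
    rw [map_zero]
    apply MvPolynomial.funext
    intro y
    rw [map_zero, eval_map, ← aeval_def]
    have h1 := e6 y
    have h2 : 0 ≤ (aeval y (r.coeff 1)) ^ 2 * ∑ i, y i ^ 2 :=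
      mul_nonneg (sq_nonneg _) (Finset.sum_nonneg fun i _ => sq_nonneg _)
    have h3 : (aeval y (r.coeff 0)) ^ 2 = 0 := le_antisymm (by linarith) (sq_nonneg _)
    exact pow_eq_zero_iff (two_ne_zero) |>.1 h3
  have e8 : r.coeff 1 = 0 := by
    rw [e7] at e5
    have hc0 : c ≠ 0 := by
      intro h
      have := congrArg (aeval (fun _ => (1 : ℝ))) h
      rw [hc] at this
      simp at this
      norm_cast at this
    have : (r.coeff 1) ^ 2 * c = 0 := by simpa using e5
    rcases mul_eq_zero.1 this with h | h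
    · exact pow_eq_zero_iff (two_ne_zero) |>.1 h
    · exact absurd h hc0
  have e9 : r = 0 := by rw [hrform, e7, e8]; simp
  apply hD
  rw [← hdiv, e9, zero_add] at hf
  have h1 : F = (finSuccEquiv k (m + 1)).symm (M * (f /ₘ M)) := by
    rw [hf]; simp
  rw [h1, map_mul, ← hMD]
  simp only [AlgEquiv.symm_apply_apply]
  exact Dvd.intro _ rfl

end

end H450Al
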