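import Mathlib
import Pool.Agent.H450R2.Al.Td

/-!
Specialisation of elements of a valuation ring to its residue field: behaviour of the
transcendence rank.
-/

set_option autoImplicit false

namespace H450Al

open MvPolynomial Set

section
variable (k : Type*) {Ω : Type*} [Field k] [Field Ω] [Algebra k Ω]

theorem exists_basis_index {ι : Type*} [Finite ι] (z : ι → Ω) :
    ∃ J : Set ι, AlgebraicIndependent k (fun j : J => z j) ∧ (∀ i, z i ∈ cl k (z '' J)) ∧
      rk k (range z) = J.encard := by
  obtain ⟨I, hI⟩ := (AlgebraicIndependent.matroid k Ω).exists_isBasis (range z)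
  obtain ⟨J, _, hJ⟩ := Set.exists_subset_bijOn (z ⁻¹' I) z
  have himg : z '' (z ⁻¹' I) = I := by
    rw [image_preimage_eq_inter_range]
    exact inter_eq_left.2 hI.subset
  rw [himg] at hJ
  refine ⟨J, ?_, ?_, ?_⟩
  · have h1 : AlgebraicIndependent k ((↑) : I → Ω) := by
      have := hI.indep
      rw [AlgebraicIndependent.matroid_indep_iff] at this
      exact this
    exact h1.comp (fun j : J => (⟨z j, hJ.mapsTo j.2⟩ : I)) (by
      intro a b hab
      apply Subtype.ext
      exact hJ.injOn a.2 b.2 (congrArg Subtype.val hab))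
  · intro i
    rw [hJ.image_eq]
    unfold cl
    rw [hI.closure_eq_closure]
    exact subset_cl k _ (mem_range_self i)
  · unfold rk
    rw [hI.eRk_eq_encard, ← hJ.image_eq, hJ.injOn.encard_image]

theorem exists_lift {ι : Type*} (z : ι → Ω) (J : Set ι) (a : Ω)
    (ha : a ∈ Algebra.adjoin k (z '' J)) :
    ∃ Q : MvPolynomial J k, a = aeval (fun j : J => z j) Q := by
  rw [image_eq_range, Algebra.adjoin_range_eq_range_aeval] at ha
  obtain ⟨Q, hQ⟩ := ha
  exact ⟨Q, hQ.symm⟩

theorem rk_of_indep {ι : Type*} [Finite ι] (z : ι → Ω) (J : Set ι)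
    (h : AlgebraicIndependent k (fun j : J => z j)) : J.encard ≤ rk k (range z) := by
  have hinj : InjOn z J := by
    intro a ha b hb hab
    have := h.injective (a₁ := ⟨a, ha⟩) (a₂ := ⟨b, hb⟩) hab
    exact congrArg Subtype.val this
  have h1 : (AlgebraicIndependent.matroid k Ω).Indep (z '' J) := by
    rw [AlgebraicIndependent.matroid_indep_iff]
    have h2 : range (fun j : J => z j) = z '' J := by
      rw [image_eq_range]
    have h3 := (algebraicIndependent_subtype_range h.injective).2 h
    rw [h2] at h3
    exact h3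
  rw [← hinj.encard_image]
  exact h1.encard_le_eRk_of_subset (image_subset_range _ _)

end

section
variable {k Ω : Type*} [Field k] [Field Ω] [Algebra k Ω] (B : ValuationSubring Ω)
  [Algebra k B] [IsScalarTower k B Ω]

theorem aeval_coe {ι : Type*} (x : ι → B) (P : MvPolynomial ι k) :
    aeval (fun i => (x i : Ω)) P = ((aeval x P : B) : Ω) := by
  exact aeval_algebraMap_apply Ω x P

omit [Algebra k Ω] [IsScalarTower k B Ω] in
theorem aeval_res {ι : Type*} (x : ι → B) (P : MvPolynomial ι k) :
    aeval (fun i => IsLocalRing.residue B (x i)) P = IsLocalRing.residue B (aeval x P) := by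
  exact aeval_algebraMap_apply (IsLocalRing.ResidueField B) x P

/-- a relation between residues in maximal rank comes from a relation between the elements -/
theorem spec_lemma {n : ℕ} (x : Fin n → B) (m : ℕ)
    (h1 : rk k (range fun i => (x i : Ω)) ≤ m)
    (h2 : (m : ℕ∞) ≤ rk k (range fun i => IsLocalRing.residue B (x i)))
    (P : MvPolynomial (Fin n) k) (hP : aeval (fun i => IsLocalRing.residue B (x i)) P = 0) :
    aeval (fun i => (x i : Ω)) P = 0 := by
  classical
  by_contra hne
  obtain ⟨J, hJ, hJc, hJr⟩ := exists_basis_index k (fun i => IsLocalRing.residue B (x i))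
  -- the same indices are independent upstairs
  have hJx : AlgebraicIndependent k (fun j : J => ((x j : B) : Ω)) := by
    rw [algebraicIndependent_iff]
    intro Q hQ
    apply hJ.eq_zero_of_aeval_eq_zero
    have e1 := aeval_coe (k := k) B (fun j : J => x j) Q
    rw [hQ] at e1
    have e2 := aeval_res (k := k) B (fun j : J => x j) Q
    rw [e2]
    have e3 : (aeval (fun j : J => x j) Q : B) = 0 := by
      apply Subtype.ext
      exact e1.symm
    rw [e3, map_zero]
  have hclo : ∀ i, ((x i : B) : Ω) ∈ cl k ((fun i => ((x i : B) : Ω)) '' J) := by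
    intro i
    by_contra hi
    have h3 := rk_insert_eq k _ _ hi
    have h4 : J.encard ≤ rk k ((fun i => ((x i : B) : Ω)) '' J) := by
      have := rk_of_indep k (fun j : J => ((x j : B) : Ω)) univ (by
        exact hJx.comp (fun j : (univ : Set J) => j.1) Subtype.val_injective)
      rw [encard_univ] at this
      rw [image_eq_range]
      exact this
    have h5 : rk k (insert ((x i : B) : Ω) ((fun i => ((x i : B) : Ω)) '' J)) ≤
        rk k (range fun i => ((x i : B) : Ω)) := by
      apply rk_mono'
      rw [insert_subset_iff]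
      exact ⟨mem_range_self i, image_subset_range _ _⟩
    rw [h3] at h5
    have h6 : (m : ℕ∞) + 1 ≤ m := by
      calc (m : ℕ∞) + 1 ≤ J.encard + 1 := by
            gcongr
            rw [← hJr]; exact h2
        _ ≤ rk k ((fun i => ((x i : B) : Ω)) '' J) + 1 := by gcongr
        _ ≤ _ := h5
        _ ≤ m := h1
    have h7 : ((m + 1 : ℕ) : ℕ∞) ≤ (m : ℕ) := by exact_mod_cast h6
    have := Nat.cast_le.1 h7
    omega
  have hPalg : IsAlgebraic (Algebra.adjoin k ((fun i => ((x i : B) : Ω)) '' J))
      (aeval (fun i => ((x i : B) : Ω)) P) := by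
    rw [← mem_cl]
    exact aeval_mem_cl k hclo P
  obtain ⟨p, hp0, hp⟩ := hPalg.exists_nonzero_coeff_and_aeval_eq_zero
    (mem_nonZeroDivisors_of_ne_zero hne)
  -- lift the coefficients
  have hlift : ∀ i, ∃ Q : MvPolynomial J k, ((p.coeff i : Algebra.adjoin k
      ((fun i => ((x i : B) : Ω)) '' J)) : Ω) = aeval (fun j : J => ((x j : B) : Ω)) Q := by
    intro i
    exact exists_lift k (fun i => ((x i : B) : Ω)) J _ (p.coeff i).2
  choose Q hQ using hlift
  have hsum : ∑ i ∈ Finset.range (p.natDegree + 1),
      (aeval (fun j : J => x j) (Q i) : B) * (aeval x P : B) ^ i = 0 := by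
    apply Subtype.ext
    have e1 := hp
    rw [Polynomial.aeval_eq_sum_range] at e1
    rw [AddSubmonoidClass.coe_finsetSum]
    refine Eq.trans ?_ e1
    apply Finset.sum_congr rfl
    intro i _
    change ((aeval (fun j : J => x j) (Q i) : B) : Ω) * ((aeval x P : B) : Ω) ^ i = _
    rw [← aeval_coe (k := k) B, ← aeval_coe (k := k) B, ← hQ i]
    rfl
  have hres := congrArg (IsLocalRing.residue B) hsum
  rw [map_sum, map_zero] at hres
  have hP0 : IsLocalRing.residue B (aeval x P : B) = 0 := by
    rw [← aeval_res (k := k) B]; exact hP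
  rw [Finset.sum_eq_single 0] at hres
  · rw [map_mul, pow_zero, map_one, mul_one, ← aeval_res (k := k) B] at hres
    have h8 := hJ.eq_zero_of_aeval_eq_zero _ hres
    apply hp0
    apply Subtype.ext
    rw [hQ 0, h8, map_zero]
    rfl
  · intro i _ hi
    rw [map_mul, map_pow, hP0, zero_pow hi, mul_zero]
  · intro h; exact absurd (Finset.mem_range.2 (Nat.succ_pos _)) h

/-- if no nonzero polynomial expression in the `x i` is a nonunit, the residues have at least the
rank of the `x i` -/
theorem rk_le_res {ι : Type*} [Finite ι] (x : ι → B)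
    (h : ∀ Q : MvPolynomial ι k, IsLocalRing.residue B (aeval x Q) = 0 →
      aeval (fun i => ((x i : B) : Ω)) Q = 0) :
    rk k (range fun i => ((x i : B) : Ω)) ≤ rk k (range fun i => IsLocalRing.residue B (x i)) := by
  classical
  obtain ⟨J, hJ, -, hJr⟩ := exists_basis_index k (fun i => ((x i : B) : Ω))
  rw [hJr]
  apply rk_of_indep
  rw [algebraicIndependent_iff]
  intro Q hQ
  apply hJ.eq_zero_of_aeval_eq_zero
  have e1 : aeval (fun j : J => ((x j : B) : Ω)) Q =
      aeval (fun i => ((x i : B) : Ω)) (rename ((↑) : J → ι) Q) := by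
    rw [aeval_rename]; rfl
  rw [e1]
  apply h
  rw [← aeval_res (k := k) B, aeval_rename]
  exact hQ

/-- a nonzero element algebraic over `k` has nonzero residue -/
theorem res_ne_zero_of_algebraic (y : B) (hy : IsAlgebraic k (y : Ω)) (hy0 : (y : Ω) ≠ 0) :
    IsLocalRing.residue B y ≠ 0 := by
  intro h0
  obtain ⟨p, hp0, hp⟩ := hy.exists_nonzero_coeff_and_aeval_eq_zero
    (mem_nonZeroDivisors_of_ne_zero hy0)
  have h1 : Polynomial.aeval y p = 0 := by
    apply Subtype.ext
    have := Polynomial.aeval_algebraMap_apply Ω y p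
    have h2 : Polynomial.aeval (algebraMap B Ω y) p = 0 := hp
    rw [h2] at this
    exact this.symm
  have h2 : Polynomial.aeval (IsLocalRing.residue B y) p = 0 := by
    have := Polynomial.aeval_algebraMap_apply (IsLocalRing.ResidueField B) y p
    rw [h1, map_zero] at this
    exact this
  rw [h0] at h2
  apply hp0
  have h3 : Polynomial.aeval (0 : IsLocalRing.ResidueField B) p =
      algebraMap k _ (p.coeff 0) := by
    rw [← Polynomial.coeff_zero_eq_aeval_zero']
  rw [h3] at h2
  exact (map_eq_zero_iff _ (algebraMap k (IsLocalRing.ResidueField B)).injective).1 h2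

end

end H450Al
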