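import Mathlib
import Pool.Agent.H450R2.Al.Spec
import Pool.Agent.H450R2.Al.Iso

/-!
Points of rank `d - 1` over the field of constants: Gauss' lemma, nonvanishing gradient of the
irreducible equation, and local structure of algebraic hypersurfaces at such points.
-/

set_option autoImplicit false

namespace H450Al

open MvPolynomial Set

section
variable {k : Type*} {Ω : Type*} [Field k] [Field Ω] [Algebra k Ω]

theorem finSucc_pderiv {n : ℕ} (F : MvPolynomial (Fin (n + 1)) k) :
    finSuccEquiv k n (pderiv 0 F) = Polynomial.derivative (finSuccEquiv k n F) := by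
  induction F using MvPolynomial.induction_on with
  | C a => simp [finSuccEquiv_apply]
  | add p q hp hq => simp only [map_add, hp, hq]
  | mul_X p i hp =>
    rw [Derivation.leibniz, smul_eq_mul, smul_eq_mul, map_add, map_mul, map_mul, map_mul, hp,
      Polynomial.derivative_mul]
    refine Fin.cases ?_ (fun j => ?_) i
    · rw [pderiv_X_self, finSuccEquiv_X_zero, map_one, Polynomial.derivative_X]; ring
    · rw [pderiv_X_of_ne (by exact Fin.succ_ne_zero j), finSuccEquiv_X_succ, map_zero,
        Polynomial.derivative_C]; ring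

/-- evaluation of a polynomial through the fraction field -/
theorem gauss_core {n : ℕ} (x : Fin (n + 1) → Ω)
    (hx : AlgebraicIndependent k (fun i : Fin n => x i.succ))
    (F : MvPolynomial (Fin (n + 1)) k) (hF : Irreducible F) (h : aeval x F = 0) :
    (∀ G : MvPolynomial (Fin (n + 1)) k, aeval x G = 0 → F ∣ G) ∧
      (CharZero k → aeval x (pderiv 0 F) ≠ 0) := by
  classical
  set A := MvPolynomial (Fin n) k with hA
  set K := FractionRing A with hK
  set φ : A →+* Ω := (aeval (fun i => x (Fin.succ i)) : MvPolynomial (Fin n) k →ₐ[k] Ω).toRingHom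
    with hφ
  have hφi : Function.Injective φ := hx
  set ψ : K →+* Ω := IsFractionRing.lift hφi with hψ
  have hψφ : ψ.comp (algebraMap A K) = φ := by
    ext a
    · simp [hψ]
    · simp [hψ]
  set f := finSuccEquiv k n F with hf
  have hfi : Irreducible f := by
    rw [hf]
    exact (MulEquiv.irreducible_iff (finSuccEquiv k n)).2 hF
  have hev : ∀ G : MvPolynomial (Fin (n + 1)) k, aeval x G =
      Polynomial.eval₂ ψ (x 0) ((finSuccEquiv k n G).map (algebraMap A K)) := by
    intro G
    rw [Polynomial.eval₂_map, hψφ, aeval_fin_succ]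
  have hdeg : f.natDegree ≠ 0 := by
    intro h0
    have h1 := Polynomial.eq_C_of_natDegree_eq_zero h0
    have h2 : φ (f.coeff 0) = 0 := by
      have := aeval_fin_succ k x F
      rw [h, ← hf, h1, Polynomial.eval₂_C] at this
      exact this.symm
    have h3 : f.coeff 0 = 0 := hφi (by rw [h2, map_zero])
    rw [h3, map_zero] at h1
    exact hfi.ne_zero h1
  have hprim : f.IsPrimitive := hfi.isPrimitive hdeg
  have hbar : Irreducible (f.map (algebraMap A K)) :=
    (hprim.irreducible_iff_irreducible_map_fraction_map (K := K)).1 hfi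
  have hroot : Polynomial.eval₂ ψ (x 0) (f.map (algebraMap A K)) = 0 := by
    rw [hf, ← hev]; exact h
  have hcop : ∀ g : Polynomial K, Polynomial.eval₂ ψ (x 0) g = 0 →
      ¬ IsCoprime (f.map (algebraMap A K)) g := by
    rintro g hg ⟨a, b, hab⟩
    have := congrArg (Polynomial.eval₂ ψ (x 0)) hab
    rw [Polynomial.eval₂_add, Polynomial.eval₂_mul, Polynomial.eval₂_mul, hroot, hg,
      Polynomial.eval₂_one] at this
    simp at this
  constructor
  · intro G hG
    rw [hev] at hG
    have h1 : f.map (algebraMap A K) ∣ (finSuccEquiv k n G).map (algebraMap A K) := by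
      by_contra hnd
      exact hcop _ hG ((Irreducible.coprime_iff_not_dvd hbar).2 hnd)
    have h2 := (hprim.dvd_iff_fraction_map_dvd_fraction_map (K := K)).2 h1
    rw [hf] at h2
    exact (map_dvd_iff (finSuccEquiv k n)).1 h2
  · intro hchar h0
    have hcA : CharZero A := inferInstance
    have hcK : CharZero K := charZero_of_injective_algebraMap (IsFractionRing.injective A K)
    have hsep : (f.map (algebraMap A K)).Separable := hbar.separable
    rw [hev, finSucc_pderiv, ← hf, ← Polynomial.derivative_map] at h0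
    exact hcop _ h0 hsep

theorem exists_good_index {m : ℕ} (x : Fin (m + 2) → Ω)
    (hx : ((m + 1 : ℕ) : ℕ∞) ≤ rk k (range x)) (P : MvPolynomial (Fin (m + 2)) k) (hP : P ≠ 0)
    (h : aeval x P = 0) :
    ∃ j : Fin (m + 2), AlgebraicIndependent k (fun i : Fin (m + 1) =>
      (x ∘ Equiv.swap 0 j) i.succ) := by
  classical
  obtain ⟨J, hJ, -, hJr⟩ := exists_basis_index k x
  have hne : J ≠ univ := by
    rintro rfl
    have h1 : AlgebraicIndependent k x :=
      hJ.comp (fun i : Fin (m + 2) => (⟨i, mem_univ i⟩ : (univ : Set (Fin (m + 2)))))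
        (fun a b hab => congrArg Subtype.val hab)
    exact hP (h1.eq_zero_of_aeval_eq_zero P h)
  obtain ⟨j, hj⟩ := (Set.ne_univ_iff_exists_notMem J).1 hne
  have hcard : ((m + 1 : ℕ) : ℕ∞) ≤ J.encard := by rw [← hJr]; exact hx
  have hJc : J = {j}ᶜ := by
    apply Set.Finite.eq_of_subset_of_encard_le' (toFinite _)
    · intro a ha
      simp only [mem_compl_iff, mem_singleton_iff]
      rintro rfl
      exact hj ha
    · refine le_trans ?_ hcard
      have h1 : ({j}ᶜ : Set (Fin (m + 2))).ncard = m + 1 := by
        rw [Set.ncard_compl]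
        simp
      rw [← h1]
      rw [Set.Finite.cast_ncard_eq (toFinite _)]
  refine ⟨j, ?_⟩
  have hmem : ∀ i : Fin (m + 1), Equiv.swap 0 j i.succ ∈ J := by
    intro i
    rw [hJc]
    simp only [mem_compl_iff, mem_singleton_iff]
    intro h1
    have h2 : i.succ = Equiv.swap 0 j j := by
      have h3 := congrArg (Equiv.swap 0 j) h1
      rwa [Equiv.swap_apply_self] at h3
    rw [Equiv.swap_apply_right] at h2
    exact Fin.succ_ne_zero i h2
  exact hJ.comp (fun i : Fin (m + 1) => (⟨Equiv.swap 0 j i.succ, hmem i⟩ : J))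
    (fun a b hab => by
      have h1 : Equiv.swap 0 j a.succ = Equiv.swap 0 j b.succ := congrArg Subtype.val hab
      exact Fin.succ_injective _ ((Equiv.swap 0 j).injective h1))

/-- the ideal of a point of rank `d - 1` is principal -/
theorem gauss_lemma {m : ℕ} (x : Fin (m + 2) → Ω)
    (hx : ((m + 1 : ℕ) : ℕ∞) ≤ rk k (range x)) (F : MvPolynomial (Fin (m + 2)) k)
    (hF : Irreducible F) (h : aeval x F = 0) :
    (∀ G : MvPolynomial (Fin (m + 2)) k, aeval x G = 0 → F ∣ G) ∧
      (CharZero k → ∃ j, aeval x (pderiv j F) ≠ 0) := by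
  obtain ⟨j, hj⟩ := exists_good_index x hx F hF.ne_zero h
  set τ := Equiv.swap (0 : Fin (m + 2)) j with hτ
  set E := renameEquiv k τ with hE
  have hev : ∀ G : MvPolynomial (Fin (m + 2)) k, aeval (x ∘ τ) (E G) = aeval x G := by
    intro G
    rw [hE, renameEquiv_apply, aeval_rename]
    congr 1
    congr 1
    funext i
    simp [hτ]
  have hEF : Irreducible (E F) := (MulEquiv.irreducible_iff E).2 hF
  obtain ⟨h1, h2⟩ := gauss_core (x ∘ τ) hj (E F) hEF (by rw [hev]; exact h)
  refine ⟨fun G hG => ?_, fun hc => ⟨j, ?_⟩⟩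
  · have := h1 (E G) (by rw [hev]; exact hG)
    exact (map_dvd_iff E).1 this
  · have h3 := h2 hc
    have h4 : pderiv 0 (E F) = E (pderiv j F) := by
      rw [hE, renameEquiv_apply, renameEquiv_apply]
      have h5 : (0 : Fin (m + 2)) = τ j := by simp [hτ]
      conv_lhs => rw [h5]
      exact pderiv_rename τ.injective j F
    rw [h4, hev] at h3
    exact h3

end

section
variable {k : Type*} [Field k] [Algebra k ℝ] {m : ℕ}

theorem continuous_aeval' {ι : Type*} (G : MvPolynomial ι k) :
    Continuous (fun y : ι → ℝ => aeval y G) := by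
  have : (fun y : ι → ℝ => aeval y G) = fun y => eval y (map (algebraMap k ℝ) G) := by
    funext y
    rw [eval_map, aeval_def]
  rw [this]
  exact MvPolynomial.continuous_eval _

theorem exists_irreducible (x : Fin (m + 2) → ℝ) (P : MvPolynomial (Fin (m + 2)) k) (hP : P ≠ 0)
    (h : aeval x P = 0) : ∃ F : MvPolynomial (Fin (m + 2)) k, Irreducible F ∧ aeval x F = 0 := by
  revert hP h
  induction P using WfDvdMonoid.induction_on_irreducible with
  | zero => intro h; exact absurd rfl h
  | unit u hu =>
    intro _ h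
    exfalso
    have := hu.map (aeval x : MvPolynomial (Fin (m + 2)) k →ₐ[k] ℝ)
    rw [h] at this
    exact not_isUnit_zero this
  | mul a i ha hi ih =>
    intro _ h
    rw [map_mul, mul_eq_zero] at h
    rcases h with h | h
    · exact ⟨i, hi, h⟩
    · exact ih ha h

theorem local_factor (x : Fin (m + 2) → ℝ) (hx : ((m + 1 : ℕ) : ℕ∞) ≤ rk k (range x))
    (F : MvPolynomial (Fin (m + 2)) k) (hF : Irreducible F) (h : aeval x F = 0)
    (G : MvPolynomial (Fin (m + 2)) k) (hG : G ≠ 0) :
    ∀ᶠ y in nhds x, aeval y G = 0 → aeval y F = 0 := by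
  revert hG
  induction G using WfDvdMonoid.induction_on_irreducible with
  | zero => intro h; exact absurd rfl h
  | unit u hu =>
    intro _
    apply Filter.Eventually.of_forall
    intro y hy
    exfalso
    have := hu.map (aeval y : MvPolynomial (Fin (m + 2)) k →ₐ[k] ℝ)
    rw [hy] at this
    exact not_isUnit_zero this
  | mul a i ha hi ih =>
    intro _
    have h1 : ∀ᶠ y in nhds x, aeval y i = 0 → aeval y F = 0 := by
      by_cases hix : aeval x i = 0
      · have h2 := (gauss_lemma x hx F hF h).1 i hix
        obtain ⟨c, hc⟩ := h2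
        have hcu : IsUnit c := (hi.isUnit_or_isUnit hc).resolve_left hF.not_isUnit
        apply Filter.Eventually.of_forall
        intro y hy
        rw [hc, map_mul, mul_eq_zero] at hy
        rcases hy with hy | hy
        · exact hy
        · have := hcu.map (aeval y : MvPolynomial (Fin (m + 2)) k →ₐ[k] ℝ)
          rw [hy] at this
          exact absurd this not_isUnit_zero
      · have h2 : ∀ᶠ y in nhds x, aeval y i ≠ 0 :=
          (continuous_aeval' i).continuousAt.eventually_ne hix
        filter_upwards [h2] with y hy h3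
        exact absurd h3 hy
    filter_upwards [h1, ih ha] with y hy1 hy2 h3
    rw [map_mul, mul_eq_zero] at h3
    rcases h3 with h3 | h3
    · exact hy1 h3
    · exact hy2 h3

/-- local structure of the hypersurface `P = 0` at a point of rank `d - 1` -/
theorem exists_local_eq (x : Fin (m + 2) → ℝ) (hx : ((m + 1 : ℕ) : ℕ∞) ≤ rk k (range x))
    (P : MvPolynomial (Fin (m + 2)) k) (hP : P ≠ 0) (h : aeval x P = 0) :
    ∃ Φ : MvPolynomial (Fin (m + 2)) k, aeval x Φ = 0 ∧ (∃ j, aeval x (pderiv j Φ) ≠ 0) ∧
      ∀ᶠ y in nhds x, aeval y P = 0 → aeval y Φ = 0 := by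
  obtain ⟨F, hF, hFx⟩ := exists_irreducible x P hP h
  have hchar : CharZero k := by
    have : Function.Injective (algebraMap k ℝ) := (algebraMap k ℝ).injective
    exact (RingHom.charZero_iff this).2 inferInstance
  exact ⟨F, hFx, (gauss_lemma x hx F hF hFx).2 hchar, local_factor x hx F hF hFx P hP⟩

end

end H450Al
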