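import Mathlib
import Pool.Agent.H450R2.Al.Spec

/-!
A valuation ring in which a generic vector becomes isotropic.
-/

set_option autoImplicit false

namespace H450Al

open MvPolynomial Set

section
variable (k : Type*) {Ω : Type*} [Field k] [Field Ω] [Algebra k Ω]

theorem exists_place {m : ℕ} (S : Set Ω) (e : Fin (m + 1) → Ω)
    (hS : ∀ i : Fin m, e i.succ ∈ S) (h0 : e 0 ∉ cl k S) :
    ∃ B : ValuationSubring Ω, (∀ a ∈ IntermediateField.adjoin k S, a ∈ B) ∧ e 0 ∈ B ∧
      (∑ i, e i ^ 2) ∈ B.nonunits := by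
  set F := IntermediateField.adjoin k S with hF
  have htr : Transcendental F (e 0) := by
    intro h
    apply h0
    rw [mem_cl]
    exact IntermediateField.isAlgebraic_adjoin_iff.1 h
  have hc : ∑ i : Fin m, e i.succ ^ 2 ∈ F :=
    sum_mem fun i _ => pow_mem (IntermediateField.subset_adjoin k S (hS i)) 2
  set c : F := ⟨∑ i : Fin m, e i.succ ^ 2, hc⟩ with hcdef
  set A : Subring Ω := (Algebra.adjoin F {e 0}).toSubring with hA
  have hx : e 0 ∈ A := Algebra.self_mem_adjoin_singleton F (e 0)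
  have hFA : ∀ a ∈ F, a ∈ A := fun a ha =>
    (Algebra.adjoin F {e 0}).algebraMap_mem (⟨a, ha⟩ : F)
  have hy : ∑ i, e i ^ 2 ∈ A := by
    rw [Fin.sum_univ_succ]
    exact add_mem (pow_mem hx 2) (hFA _ hc)
  set y : A := ⟨∑ i, e i ^ 2, hy⟩ with hydef
  have hI : Ideal.span {y} ≠ ⊤ := by
    intro htop
    rw [Ideal.span_singleton_eq_top] at htop
    obtain ⟨z, hz⟩ := htop.exists_right_inv
    have hz1 : (∑ i, e i ^ 2) * (z : Ω) = 1 := congrArg (fun w : A => (w : Ω)) hz
    have hz2 : (z : Ω) ∈ Algebra.adjoin F {e 0} := z.2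
    rw [Algebra.adjoin_singleton_eq_range_aeval] at hz2
    obtain ⟨g, hg⟩ := hz2
    have hg' : Polynomial.aeval (e 0) g = (z : Ω) := hg
    have hrel : Polynomial.aeval (e 0) ((Polynomial.X ^ 2 + Polynomial.C c) * g - 1) = 0 := by
      rw [map_sub, map_mul, hg', map_add, map_pow, Polynomial.aeval_X, Polynomial.aeval_C, map_one,
        ← hz1, Fin.sum_univ_succ]
      have : (algebraMap F Ω) c = ∑ i : Fin m, e i.succ ^ 2 := rfl
      rw [this]; ring
    have hpz : (Polynomial.X ^ 2 + Polynomial.C c) * g - 1 = 0 := by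
      by_contra hne
      exact htr ⟨_, hne, hrel⟩
    have hunit : IsUnit (Polynomial.X ^ 2 + Polynomial.C c : Polynomial F) :=
      IsUnit.of_mul_eq_one g (sub_eq_zero.1 hpz)
    have hdeg := Polynomial.degree_eq_zero_of_isUnit hunit
    rw [Polynomial.degree_X_pow_add_C (by norm_num)] at hdeg
    norm_num at hdeg
  obtain ⟨B, hAB, hIB⟩ := Ideal.image_subset_nonunits_valuationSubring _ hI
  refine ⟨B, fun a ha => hAB (hFA a ha), hAB hx, ?_⟩
  apply hIB
  exact ⟨y, Ideal.mem_span_singleton_self y, rfl⟩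

/-- the algebra structure of a valuation ring over a field of constants -/
@[instance_reducible] noncomputable def constAlgebra (B : ValuationSubring Ω) (h : ∀ a : k, algebraMap k Ω a ∈ B) :
    Algebra k B :=
  ((algebraMap k Ω).codRestrict B.toSubring h).toAlgebra

theorem constTower (B : ValuationSubring Ω) (h : ∀ a : k, algebraMap k Ω a ∈ B) :
    @IsScalarTower k B Ω (constAlgebra k B h).toSMul _ _ := by
  let _ := constAlgebra k B h
  exact IsScalarTower.of_algebraMap_eq fun a => rfl

theorem res_eq_zero_iff {B : ValuationSubring Ω} (y : B) :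
    IsLocalRing.residue B y = 0 ↔ (y : Ω) ∈ B.nonunits := by
  rw [IsLocalRing.residue_eq_zero_iff, IsLocalRing.mem_maximalIdeal, mem_nonunits_iff,
    ValuationSubring.mem_nonunits_iff_exists_mem_maximalIdeal]
  constructor
  · intro h
    exact ⟨y.2, (IsLocalRing.mem_maximalIdeal _).2 h⟩
  · rintro ⟨h, h'⟩
    exact (IsLocalRing.mem_maximalIdeal _).1 h'

end

end H450Al
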