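import Mathlib
import Pool.Agent.H450R2.Al.Spec

/-!
Roots of a polynomial along a line whose direction is not a zero of the leading form: they are
algebraic over the data of the line, and they are integral.
-/

set_option autoImplicit false

namespace H450Al

open MvPolynomial Set

/-- the leading form of a polynomial -/
noncomputable def lead {R : Type*} [CommSemiring R] {d : ℕ} (P : MvPolynomial (Fin d) R) :
    MvPolynomial (Fin d) R := homogeneousComponent P.totalDegree P

section
variable {k A : Type*} [CommRing k] [CommRing A] [Algebra k A] {d : ℕ}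

theorem hom_smul (j : ℕ) (φ : MvPolynomial (Fin d) k) (hφ : φ.IsHomogeneous j) (c : A)
    (x : Fin d → A) : aeval (fun i => c * x i) φ = c ^ j * aeval x φ := by
  rw [aeval_def, aeval_def, eval₂_eq', eval₂_eq', Finset.mul_sum]
  apply Finset.sum_congr rfl
  intro m hm
  have h1 : ∏ i, (c * x i) ^ m i = c ^ j * ∏ i, x i ^ m i := by
    simp_rw [mul_pow]
    rw [Finset.prod_mul_distrib, Finset.prod_pow_eq_pow_sum]
    congr 2
    have h2 := hφ (mem_support_iff.1 hm)
    rw [← h2]
    simp [Finsupp.weight_apply, Finsupp.sum_fintype]
  rw [h1]; ring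

theorem rev_identity (P : MvPolynomial (Fin d) k) (q e : Fin d → A) (s r : A) (hsr : s * r = 1) :
    ∑ j ∈ Finset.range (P.totalDegree + 1), r ^ (P.totalDegree - j) *
      aeval (fun i => r * q i + e i) (homogeneousComponent j P) =
    r ^ P.totalDegree * aeval (fun i => q i + s * e i) P := by
  have h1 : aeval (fun i => q i + s * e i) P = ∑ j ∈ Finset.range (P.totalDegree + 1),
      s ^ j * aeval (fun i => r * q i + e i) (homogeneousComponent j P) := by
    conv_lhs => rw [← sum_homogeneousComponent P]
    rw [map_sum]
    apply Finset.sum_congr rfl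
    intro j _
    rw [← hom_smul j _ (homogeneousComponent_isHomogeneous j P)]
    congr 2
    funext i
    linear_combination -(q i) * hsr
  rw [h1, Finset.mul_sum]
  apply Finset.sum_congr rfl
  intro j hj
  have hj' : j ≤ P.totalDegree := Nat.lt_succ_iff.1 (Finset.mem_range.1 hj)
  have h2 : r ^ P.totalDegree * s ^ j = r ^ (P.totalDegree - j) := by
    have h3 : r ^ P.totalDegree = r ^ (P.totalDegree - j) * r ^ j := by
      rw [← pow_add, Nat.sub_add_cancel hj']
    rw [h3, mul_assoc, ← mul_pow, mul_comm r s, hsr, one_pow, mul_one]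
  rw [← mul_assoc, h2]

end

section
variable (k : Type*) {Ω : Type*} [Field k] [Field Ω] [Algebra k Ω] {d : ℕ}

/-- the parameter of an intersection point with the hypersurface `P = 0` is algebraic over the
data of the line -/
theorem root_algebraic (P : MvPolynomial (Fin d) k) (q e : Fin d → Ω) (s : Ω)
    (h : aeval (fun i => q i + s * e i) P = 0) (hl : aeval e (lead P) ≠ 0) :
    s ∈ cl k (range q ∪ range e) := by
  classical
  by_cases hs : s = 0
  · rw [hs]
    exact (clAlg k (range q ∪ range e)).zero_mem
  have hr : s * s⁻¹ = 1 := mul_inv_cancel₀ hs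
  have hid := rev_identity P q e s s⁻¹ hr
  rw [h, mul_zero] at hid
  set T := range q ∪ range e with hT
  have hqT : ∀ i, q i ∈ Algebra.adjoin k T := fun i => Algebra.subset_adjoin (Or.inl ⟨i, rfl⟩)
  have heT : ∀ i, e i ∈ Algebra.adjoin k T := fun i => Algebra.subset_adjoin (Or.inr ⟨i, rfl⟩)
  set q' : Fin d → Algebra.adjoin k T := fun i => ⟨q i, hqT i⟩ with hq'
  set e' : Fin d → Algebra.adjoin k T := fun i => ⟨e i, heT i⟩ with he'
  set N := P.totalDegree with hN
  set p : Polynomial (Algebra.adjoin k T) := ∑ j ∈ Finset.range (N + 1),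
    Polynomial.X ^ (N - j) * aeval (fun i => Polynomial.X * Polynomial.C (q' i) +
      Polynomial.C (e' i)) (homogeneousComponent j P) with hp
  have h0 : Polynomial.eval 0 p ≠ 0 := by
    have e1 : Polynomial.eval 0 p = aeval e' (lead P) := by
      rw [hp, Polynomial.eval_finsetSum, Finset.sum_eq_single N]
      · rw [Polynomial.eval_mul, Nat.sub_self, pow_zero, Polynomial.eval_one, one_mul]
        have := comp_aeval_apply (fun i => Polynomial.X * Polynomial.C (q' i) +
            Polynomial.C (e' i) : Fin d → Polynomial (Algebra.adjoin k T))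
          ((Polynomial.aeval (0 : Algebra.adjoin k T)).restrictScalars k)
          (homogeneousComponent N P)
        have e2 : (fun i => ((Polynomial.aeval (0 : Algebra.adjoin k T)).restrictScalars k)
            (Polynomial.X * Polynomial.C (q' i) + Polynomial.C (e' i))) = e' := by
          funext i
          simp
        rw [e2] at this
        rw [lead, ← this]
        simp [Polynomial.coe_aeval_eq_eval]
      · intro j hj hjN
        have : N - j ≠ 0 := by
          have := Finset.mem_range.1 hj
          omega
        rw [Polynomial.eval_mul, Polynomial.eval_pow, Polynomial.eval_X, zero_pow this, zero_mul]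
      · intro hN'
        exact absurd (Finset.mem_range.2 (Nat.lt_succ_self _)) hN'
    rw [e1]
    intro h0
    apply hl
    have := aeval_algebraMap_apply Ω e' (lead P)
    have e3 : (fun i => algebraMap (Algebra.adjoin k T) Ω (e' i)) = e := rfl
    rw [Function.comp_def] at this
    rw [e3, h0, map_zero] at this
    exact this
  have hp0 : p ≠ 0 := by
    intro h; rw [h, Polynomial.eval_zero] at h0; exact h0 rfl
  have hroot : Polynomial.aeval s⁻¹ p = 0 := by
    rw [hp, map_sum, ← hid]
    apply Finset.sum_congr rfl
    intro j _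
    rw [map_mul, map_pow, Polynomial.aeval_X]
    congr 1
    have := comp_aeval_apply (fun i => Polynomial.X * Polynomial.C (q' i) +
        Polynomial.C (e' i) : Fin d → Polynomial (Algebra.adjoin k T))
      ((Polynomial.aeval s⁻¹ :
        Polynomial (Algebra.adjoin k T) →ₐ[Algebra.adjoin k T] Ω).restrictScalars k)
      (homogeneousComponent j P)
    have e2 : (fun i => ((Polynomial.aeval s⁻¹ :
        Polynomial (Algebra.adjoin k T) →ₐ[Algebra.adjoin k T] Ω).restrictScalars k)
        (Polynomial.X * Polynomial.C (q' i) + Polynomial.C (e' i))) =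
        fun i => s⁻¹ * q i + e i := by
      funext i
      simp [hq', he']
      exact mul_comm _ _
    rw [e2] at this
    exact this
  have halg : s⁻¹ ∈ cl k T := by
    rw [mem_cl]
    exact ⟨p, hp0, hroot⟩
  have := inv_mem_cl k halg
  rwa [inv_inv] at this

end

section
variable {k Ω : Type*} [Field k] [Field Ω] [Algebra k Ω] (B : ValuationSubring Ω)
  [Algebra k B] [IsScalarTower k B Ω] {d : ℕ}

/-- the parameter of an intersection point is integral -/
theorem root_integral (P : MvPolynomial (Fin d) k) (q e : Fin d → B) (s : Ω)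
    (h : aeval (fun i => (q i : Ω) + s * (e i : Ω)) P = 0)
    (hl : aeval (fun i => IsLocalRing.residue B (e i)) (lead P) ≠ 0) : s ∈ B := by
  by_contra hs
  have hs0 : s ≠ 0 := by rintro rfl; exact hs B.zero_mem
  have hrB : s⁻¹ ∈ B := (B.mem_or_inv_mem s).resolve_left hs
  set r : B := ⟨s⁻¹, hrB⟩ with hr
  have hres : IsLocalRing.residue B r = 0 := by
    rw [IsLocalRing.residue_eq_zero_iff, IsLocalRing.mem_maximalIdeal, mem_nonunits_iff]
    intro hu
    obtain ⟨t, ht⟩ := hu.exists_right_inv
    apply hs
    have h1 : (s⁻¹ : Ω) * (t : Ω) = 1 := congrArg (fun z : B => (z : Ω)) ht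
    have h2 : s = t := by
      field_simp at h1
      exact h1.symm
    rw [h2]; exact t.2
  have hid := rev_identity P (fun i => (q i : Ω)) (fun i => (e i : Ω)) s s⁻¹ (mul_inv_cancel₀ hs0)
  rw [h, mul_zero] at hid
  have hidB : ∑ j ∈ Finset.range (P.totalDegree + 1), r ^ (P.totalDegree - j) *
      aeval (fun i => r * q i + e i) (homogeneousComponent j P) = (0 : B) := by
    apply Subtype.ext
    rw [AddSubmonoidClass.coe_finsetSum]
    refine Eq.trans ?_ hid
    apply Finset.sum_congr rfl
    intro j _
    have e1 := aeval_coe (k := k) B (fun i => r * q i + e i) (homogeneousComponent j P)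
    change (s⁻¹) ^ (P.totalDegree - j) * ((aeval (fun i => r * q i + e i)
      (homogeneousComponent j P) : B) : Ω) = _
    rw [← e1]
    rfl
  have h1 := congrArg (IsLocalRing.residue B) hidB
  rw [map_sum, map_zero, Finset.sum_eq_single P.totalDegree] at h1
  · rw [Nat.sub_self, pow_zero, one_mul, ← aeval_res (k := k) B] at h1
    apply hl
    rw [lead]
    have e2 : (fun i => IsLocalRing.residue B (r * q i + e i)) =
        fun i => IsLocalRing.residue B (e i) := by
      funext i
      rw [map_add, map_mul, hres, zero_mul, zero_add]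
    rw [e2] at h1
    exact h1
  · intro j hj hjN
    have : P.totalDegree - j ≠ 0 := by
      have := Finset.mem_range.1 hj
      omega
    rw [map_mul, map_pow, hres, zero_pow this, zero_mul]
  · intro hN'
    exact absurd (Finset.mem_range.2 (Nat.lt_succ_self _)) hN'

end

end H450Al
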