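import Mathlib
import Pool.Agent.H450R2.Al.Spec
import Pool.Agent.H450R2.Al.Iso
import Pool.Agent.H450R2.Al.Root
import Pool.Agent.H450R2.Al.Place

/-!
The core: along a generic orbit all flight parameters are integral at a place where the direction
is isotropic.
-/

set_option autoImplicit false

namespace H450Al

open MvPolynomial Set

/-- reflection of `e` in the hyperplane orthogonal to `ν` -/
def refl {F : Type*} [Field F] {d : ℕ} (ν e : Fin d → F) : Fin d → F :=
  fun i => e i - 2 * (∑ j, e j * ν j) / (∑ j, ν j ^ 2) * ν i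

/-- gradient of a polynomial at a point -/
noncomputable def grad {k F : Type*} [Field k] [Field F] [Algebra k F] {d : ℕ}
    (Φ : MvPolynomial (Fin d) k) (x : Fin d → F) : Fin d → F := fun j => aeval x (pderiv j Φ)

section
variable {F : Type*} [Field F] {d : ℕ}

theorem refl_sq (ν e : Fin d → F) (h : ∑ j, ν j ^ 2 ≠ 0) :
    ∑ i, refl ν e i ^ 2 = ∑ i, e i ^ 2 := by
  unfold refl
  set a := ∑ j, e j * ν j with ha
  set b := ∑ j, ν j ^ 2 with hb
  have h1 : ∀ i, (e i - 2 * a / b * ν i) ^ 2 =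
      e i ^ 2 - 4 * (a / b) * (e i * ν i) + 4 * (a / b) ^ 2 * ν i ^ 2 := by
    intro i; ring
  simp_rw [h1]
  rw [Finset.sum_add_distrib, Finset.sum_sub_distrib, ← Finset.mul_sum, ← Finset.mul_sum, ← ha,
    ← hb]
  field_simp
  ring

theorem refl_dot_normal (ν e : Fin d → F) (h : ∑ j, ν j ^ 2 ≠ 0) :
    ∑ i, refl ν e i * ν i = -∑ i, e i * ν i := by
  unfold refl
  set a := ∑ j, e j * ν j with ha
  set b := ∑ j, ν j ^ 2 with hb
  have h1 : ∀ i, (e i - 2 * a / b * ν i) * ν i = e i * ν i - 2 * (a / b) * ν i ^ 2 := by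
    intro i; ring
  simp_rw [h1]
  rw [Finset.sum_sub_distrib, ← Finset.mul_sum, ← ha, ← hb]
  field_simp
  ring

theorem refl_refl (ν e : Fin d → F) (h : ∑ j, ν j ^ 2 ≠ 0) : refl ν (refl ν e) = e := by
  funext i
  have h1 := refl_dot_normal ν e h
  change refl ν e i - 2 * (∑ j, refl ν e j * ν j) / (∑ j, ν j ^ 2) * ν i = e i
  rw [h1]
  unfold refl
  ring

end

section
variable (k : Type*) {Ω : Type*} [Field k] [Field Ω] [Algebra k Ω] {d : ℕ}

theorem refl_mem_cl {T : Set Ω} {ν e : Fin d → Ω} (hν : ∀ j, ν j ∈ cl k T)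
    (he : ∀ j, e j ∈ cl k T) (i : Fin d) : refl ν e i ∈ cl k T := by
  unfold refl
  have h1 : (∑ j, e j * ν j) ∈ clAlg k T := sum_mem fun j _ => mul_mem (he j) (hν j)
  have h2 : (∑ j, ν j ^ 2) ∈ clAlg k T := sum_mem fun j _ => pow_mem (hν j) 2
  have h3 : (∑ j, ν j ^ 2)⁻¹ ∈ clAlg k T := inv_mem_cl k h2
  have h4 : (2 : Ω) ∈ clAlg k T := by
    have := (clAlg k T).algebraMap_mem (2 : k)
    rwa [map_ofNat] at this
  have : e i - 2 * (∑ j, e j * ν j) / (∑ j, ν j ^ 2) * ν i ∈ clAlg k T := by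
    rw [div_eq_mul_inv]
    exact sub_mem (he i) (mul_mem (mul_mem (mul_mem h4 h1) h3) (hν i))
  exact this

theorem Dq_ne_zero [Algebra k ℝ] (m : ℕ) : Dq k (m + 2) ≠ 0 := by
  intro h
  have := congrArg (aeval (fun _ => (1 : ℝ))) h
  unfold Dq at this
  simp at this
  norm_cast at this

end

section
variable {k : Type*} [Field k] [Algebra k ℝ] (B : ValuationSubring ℝ)
  [Algebra k B] [IsScalarTower k B ℝ] {m : ℕ}

/-- the state of the orbit at a vertex: position and direction in the valuation ring, isotropic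
direction in the residue field, generic -/
structure St (q e : Fin (m + 2) → ℝ) (q' e' : Fin (m + 2) → B) : Prop where
  hq : ∀ j, (q' j : ℝ) = q j
  he : ∀ j, (e' j : ℝ) = e j
  iso : ∑ j, (IsLocalRing.residue B (e' j)) ^ 2 = 0
  gen : ((2 * m + 2 : ℕ) : ℕ∞) ≤ rk k (range (fun j => IsLocalRing.residue B (q' j)) ∪
    range (fun j => IsLocalRing.residue B (e' j)))

omit [IsScalarTower k B ℝ] in
theorem rk_iso_le (e' : Fin (m + 2) → B) (iso : ∑ j, (IsLocalRing.residue B (e' j)) ^ 2 = 0) :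
    rk k (range (fun j => IsLocalRing.residue B (e' j))) ≤ ((m + 1 : ℕ) : ℕ∞) := by
  apply rk_lt_of_relation k _ (Dq k (m + 2)) (Dq_ne_zero k m)
  unfold Dq
  simp only [map_sum, map_pow, aeval_X]
  exact iso

theorem rk_pos_le (q' : Fin (m + 2) → B) (P : MvPolynomial (Fin (m + 2)) k) (hP : P ≠ 0)
    (h : aeval (fun j => (q' j : ℝ)) P = 0) :
    rk k (range (fun j => IsLocalRing.residue B (q' j))) ≤ ((m + 1 : ℕ) : ℕ∞) := by
  apply rk_lt_of_relation k _ P hP
  rw [aeval_res (k := k) B]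
  have h1 : (aeval q' P : B) = 0 := by
    apply Subtype.ext
    rw [← aeval_coe (k := k) B]; exact h
  rw [h1, map_zero]

/-- the leading forms do not vanish at the isotropic direction -/
theorem lead_ne (q' e' : Fin (m + 2) → B) (P R : MvPolynomial (Fin (m + 2)) k) (hP : P ≠ 0)
    (h : aeval (fun j => (q' j : ℝ)) P = 0)
    (iso : ∑ j, (IsLocalRing.residue B (e' j)) ^ 2 = 0)
    (gen : ((2 * m + 2 : ℕ) : ℕ∞) ≤ rk k (range (fun j => IsLocalRing.residue B (q' j)) ∪
      range (fun j => IsLocalRing.residue B (e' j))))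
    (hR : ¬ Dq k (m + 2) ∣ lead R) :
    aeval (fun j => IsLocalRing.residue B (e' j)) (lead R) ≠ 0 := by
  intro h0
  have h1 := iso_lemma k _ iso (lead R) h0 hR
  have h2 := rk_pos_le B q' P hP h
  have h3 := gen.trans (rk_union k _ _)
  have h4 : ((2 * m + 2 : ℕ) : ℕ∞) ≤ ((m + 1 + m : ℕ) : ℕ∞) := by
    refine h3.trans ?_
    push_cast
    push_cast at h2
    exact add_le_add h2 h1
  have := Nat.cast_le.1 h4
  omega

theorem step_lemma (q e q₁ e₁ : Fin (m + 2) → ℝ) (s : ℝ) (P P₁ Φ₁ : MvPolynomial (Fin (m + 2)) k)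
    (hPl : ¬ Dq k (m + 2) ∣ lead P) (hP : aeval q P = 0)
    (hPl₁ : ¬ Dq k (m + 2) ∣ lead P₁) (hP₁ : aeval q₁ P₁ = 0)
    (hν : grad Φ₁ q₁ ≠ 0) (hq₁ : q₁ = fun j => q j + s * e j) (he₁ : e₁ = refl (grad Φ₁ q₁) e)
    (h : ∃ q' e' : Fin (m + 2) → B, St (k := k) B q e q' e') :
    s ∈ B ∧ ∃ q' e' : Fin (m + 2) → B, St (k := k) B q₁ e₁ q' e' := by
  obtain ⟨q', e', hst⟩ := h
  have lead_zero : ∀ R : MvPolynomial (Fin (m + 2)) k, ¬ Dq k (m + 2) ∣ lead R → R ≠ 0 := by
    rintro R hR rfl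
    apply hR
    unfold lead
    simp
  have hP0 := lead_zero P hPl
  have hP0₁ := lead_zero P₁ hPl₁
  have hqq : (fun j => (q' j : ℝ)) = q := funext hst.hq
  have hee : (fun j => (e' j : ℝ)) = e := funext hst.he
  have hPq : aeval (fun j => (q' j : ℝ)) P = 0 := by rw [hqq]; exact hP
  have hl := lead_ne B q' e' P P hP0 hPq hst.iso hst.gen hPl
  have hl₁ := lead_ne B q' e' P P₁ hP0 hPq hst.iso hst.gen hPl₁
  have hs : s ∈ B := by
    apply root_integral B P₁ q' e' s ?_ hl₁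
    rw [← hP₁, hq₁]
    congr 1
    simp only [hst.hq, hst.he]
  refine ⟨hs, ?_⟩
  set s' : B := ⟨s, hs⟩ with hs'
  set q₂ : Fin (m + 2) → B := fun j => q' j + s' * e' j with hq₂
  have hq₂c : (fun j => (q₂ j : ℝ)) = q₁ := by
    funext j
    rw [hq₁, hq₂]
    change (q' j : ℝ) + s * (e' j : ℝ) = _
    rw [hst.hq, hst.he]
  -- residues
  set qb := fun j => IsLocalRing.residue B (q' j) with hqb
  set eb := fun j => IsLocalRing.residue B (e' j) with heb
  set qb₂ := fun j => IsLocalRing.residue B (q₂ j) with hqb₂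
  have hqb₂e : ∀ j, qb₂ j = qb j + IsLocalRing.residue B s' * eb j := by
    intro j
    rw [hqb₂, hq₂]
    simp only [map_add, map_mul]
    rfl
  have hPb : aeval qb P = 0 := by
    rw [hqb, aeval_res (k := k) B]
    have h1 : (aeval q' P : B) = 0 := by
      apply Subtype.ext
      rw [← aeval_coe (k := k) B]; exact hPq
    rw [h1, map_zero]
  have hscl : IsLocalRing.residue B s' ∈ cl k (range qb₂ ∪ range eb) := by
    have h1 := root_algebraic k P qb₂ eb (-IsLocalRing.residue B s') (by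
      rw [← hPb]
      congr 1
      congr 1
      funext j
      rw [hqb₂e]; ring) hl
    have := (clAlg k (range qb₂ ∪ range eb)).neg_mem h1
    rwa [neg_neg] at this
  have hgen₂ : ((2 * m + 2 : ℕ) : ℕ∞) ≤ rk k (range qb₂ ∪ range eb) := by
    refine hst.gen.trans (rk_mono k ?_)
    rintro _ (⟨j, rfl⟩ | ⟨j, rfl⟩)
    · have h1 : qb j = qb₂ j - IsLocalRing.residue B s' * eb j := by rw [hqb₂e]; ring
      change qb j ∈ _
      rw [h1]
      exact (clAlg k (range qb₂ ∪ range eb)).sub_mem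
        (subset_cl k _ (Or.inl ⟨j, rfl⟩))
        ((clAlg k (range qb₂ ∪ range eb)).mul_mem hscl (subset_cl k _ (Or.inr ⟨j, rfl⟩)))
    · exact subset_cl k _ (Or.inr ⟨j, rfl⟩)
  have hrq₂ : ((m + 1 : ℕ) : ℕ∞) ≤ rk k (range qb₂) := by
    by_contra hcon
    rw [not_le] at hcon
    have h1 : rk k (range qb₂) ≤ (m : ℕ∞) := by
      push_cast at hcon
      exact Order.le_of_lt_add_one hcon
    have h2 := rk_iso_le (k := k) B e' hst.iso
    have h3 := hgen₂.trans (rk_union k _ _)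
    have h4 : ((2 * m + 2 : ℕ) : ℕ∞) ≤ ((m + (m + 1) : ℕ) : ℕ∞) := by
      refine h3.trans ?_
      push_cast
      push_cast at h2
      exact add_le_add h1 h2
    have := Nat.cast_le.1 h4
    omega
  -- normal vector
  set N : MvPolynomial (Fin (m + 2)) k := ∑ j, (pderiv j Φ₁) ^ 2 with hN
  have hNr : aeval (fun j => (q₂ j : ℝ)) N ≠ 0 := by
    rw [hq₂c, hN]
    simp only [map_sum, map_pow]
    intro h0
    apply hν
    funext j
    have h1 := (Finset.sum_eq_zero_iff_of_nonneg (fun i _ => sq_nonneg (aeval q₁ (pderiv i Φ₁)))).1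
      h0 j (Finset.mem_univ j)
    exact pow_eq_zero_iff two_ne_zero |>.1 h1
  have hNb : aeval qb₂ N ≠ 0 := by
    intro h0
    apply hNr
    apply spec_lemma B q₂ (m + 1) ?_ hrq₂ N h0
    rw [hq₂c]
    exact rk_lt_of_relation k q₁ P₁ hP0₁ hP₁
  set ν' : Fin (m + 2) → B := fun j => aeval q₂ (pderiv j Φ₁) with hν'
  have hν'c : ∀ j, (ν' j : ℝ) = grad Φ₁ q₁ j := by
    intro j
    rw [hν', grad, ← hq₂c]
    exact (aeval_coe (k := k) B q₂ _).symm
  set w : B := ∑ j, ν' j ^ 2 with hw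
  have hwb : IsLocalRing.residue B w ≠ 0 := by
    intro h0
    apply hNb
    rw [hN, ← h0, hw]
    simp only [map_sum, map_pow]
    apply Finset.sum_congr rfl
    intro j _
    congr 1
    rw [hν', hqb₂]
    exact aeval_res (k := k) B q₂ _
  have hwu : IsUnit w := by
    by_contra hnu
    exact hwb ((IsLocalRing.residue_eq_zero_iff _).2 ((IsLocalRing.mem_maximalIdeal _).2 hnu))
  obtain ⟨v, hv⟩ := hwu.exists_right_inv
  set e₂ : Fin (m + 2) → B := fun j => e' j - 2 * (∑ i, e' i * ν' i) * v * ν' j with he₂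
  have hvb : IsLocalRing.residue B v = (∑ j, (IsLocalRing.residue B (ν' j)) ^ 2)⁻¹ := by
    have h1 := congrArg (IsLocalRing.residue B) hv
    rw [map_mul, map_one, hw, map_sum] at h1
    simp only [map_pow] at h1
    exact eq_inv_of_mul_eq_one_right h1
  have hvr : (v : ℝ) = (∑ j, (ν' j : ℝ) ^ 2)⁻¹ := by
    have h1 := congrArg (fun z : B => (z : ℝ)) hv
    have h2 : ((w * v : B) : ℝ) = (∑ j, (ν' j : ℝ) ^ 2) * (v : ℝ) := by
      rw [hw]
      change ((∑ j, ν' j ^ 2 : B) : ℝ) * (v : ℝ) = _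
      rw [AddSubmonoidClass.coe_finsetSum]
      rfl
    have h3 : (∑ j, (ν' j : ℝ) ^ 2) * (v : ℝ) = 1 := by rw [← h2]; exact h1
    exact eq_inv_of_mul_eq_one_right h3
  set nb := fun j => IsLocalRing.residue B (ν' j) with hnb
  set eb₂ := fun j => IsLocalRing.residue B (e₂ j) with heb₂
  have heb₂e : eb₂ = refl nb eb := by
    funext j
    rw [heb₂, he₂]
    simp only [map_sub, map_mul, map_sum, hvb]
    unfold refl
    rw [div_eq_mul_inv]
    have : IsLocalRing.residue B (2 : B) = 2 := by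
      rw [map_ofNat]
    rw [this]
  have hnbs : ∑ j, nb j ^ 2 ≠ 0 := by
    intro h0
    apply hwb
    rw [hw, map_sum]
    simp only [map_pow]
    exact h0
  refine ⟨q₂, e₂, ⟨fun j => congrFun hq₂c j, ?_, ?_, ?_⟩⟩
  · intro j
    rw [he₁, he₂]
    unfold refl
    change (e' j : ℝ) - 2 * ((∑ i, e' i * ν' i : B) : ℝ) * (v : ℝ) * (ν' j : ℝ) = _
    rw [AddSubmonoidClass.coe_finsetSum, hvr]
    have h1 : ∀ i, ((e' i * ν' i : B) : ℝ) = e i * grad Φ₁ q₁ i := by
      intro i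
      change (e' i : ℝ) * (ν' i : ℝ) = _
      rw [hst.he, hν'c]
    simp only [h1, hst.he, hν'c]
    rw [div_eq_mul_inv]
  · change ∑ j, eb₂ j ^ 2 = 0
    rw [heb₂e, refl_sq nb eb hnbs]
    exact hst.iso
  · refine hgen₂.trans (rk_mono k ?_)
    have hnbcl : ∀ j, nb j ∈ cl k (range qb₂ ∪ range eb₂) := by
      intro j
      have h1 : nb j = aeval qb₂ (pderiv j Φ₁) := by
        rw [hnb, hν', hqb₂]
        exact (aeval_res (k := k) B q₂ _).symm
      have h2 : ∀ i, qb₂ i ∈ cl k (range qb₂ ∪ range eb₂) := fun i =>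
        subset_cl k _ (Or.inl (mem_range_self i))
      rw [h1]
      exact aeval_mem_cl k h2 _
    rintro _ (⟨j, rfl⟩ | ⟨j, rfl⟩)
    · exact subset_cl k _ (Or.inl ⟨j, rfl⟩)
    · have h1 : eb = refl nb eb₂ := by rw [heb₂e, refl_refl nb eb hnbs]
      have h2 : ∀ i, eb₂ i ∈ cl k (range qb₂ ∪ range eb₂) := fun i =>
        subset_cl k _ (Or.inr (mem_range_self i))
      have h3 := refl_mem_cl k hnbcl h2 j
      rw [← h1] at h3
      exact h3

end

end H450Al
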