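import Mathlib
import Pool.Agent.H450R2.Al.Core

/-!
Derivations of `ℝ` over a subfield detect transcendental numbers; the total length of a closed
orbit is killed by all derivations.
-/

set_option autoImplicit false

namespace H450Al

open MvPolynomial Set TensorProduct

section
variable {k : Type*} [Field k] [Algebra k ℝ]

open scoped IntermediateField.algebraAdjoinAdjoin in
theorem exists_derivation (L : ℝ) (hL : Transcendental k L) :
    ∃ D : Derivation k ℝ ℝ, D L ≠ 0 := by
  classical
  have hchar : CharZero k := by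
    have : Function.Injective (algebraMap k ℝ) := (algebraMap k ℝ).injective
    exact (RingHom.charZero_iff this).2 inferInstance
  have h0 : AlgebraicIndepOn k id ({L} : Set ℝ) :=
    (algebraicIndependent_singleton_iff (⟨L, rfl⟩ : ({L} : Set ℝ))).2 hL
  obtain ⟨s, hs, hb⟩ := exists_isTranscendenceBasis_superset h0
  have hLs : L ∈ s := hs rfl
  have hind : AlgebraicIndependent k ((↑) : s → ℝ) := hb.1
  set S := Algebra.adjoin k (range ((↑) : s → ℝ)) with hS
  have halg : Algebra.IsAlgebraic (IntermediateField.adjoin k (range ((↑) : s → ℝ))) ℝ :=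
    hb.isAlgebraic_field
  have hsep : Algebra.IsSeparable (IntermediateField.adjoin k (range ((↑) : s → ℝ))) ℝ :=
    inferInstance
  have e1 : Algebra.FormallyEtale S (IntermediateField.adjoin k (range ((↑) : s → ℝ))) :=
    .of_isLocalization (nonZeroDivisors _)
  have e2 : Algebra.FormallyEtale (IntermediateField.adjoin k (range ((↑) : s → ℝ))) ℝ :=
    Algebra.FormallyEtale.of_isSeparable _ ℝ
  have e3 : Algebra.FormallyEtale S ℝ :=
    .comp _ (IntermediateField.adjoin k (range ((↑) : s → ℝ))) _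
  -- the derivation of `S`
  let φ : S ≃ₐ[k] MvPolynomial s k := hind.aevalEquiv.symm
  have hφ : ∀ a : S, aeval ((↑) : s → ℝ) (φ a) = (a : ℝ) := by
    intro a
    have := hind.algebraMap_aevalEquiv (φ a)
    rw [← this]
    simp [φ]
  let δ : Derivation k S ℝ := Derivation.mk'
    ((aeval ((↑) : s → ℝ) : MvPolynomial s k →ₐ[k] ℝ).toLinearMap ∘ₗ
      (pderiv (⟨L, hLs⟩ : s)).toLinearMap ∘ₗ φ.toAlgHom.toLinearMap) (by
      intro a b
      change aeval ((↑) : s → ℝ) (pderiv (⟨L, hLs⟩ : s) (φ (a * b))) =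
        a • aeval ((↑) : s → ℝ) (pderiv (⟨L, hLs⟩ : s) (φ b)) +
        b • aeval ((↑) : s → ℝ) (pderiv (⟨L, hLs⟩ : s) (φ a))
      rw [map_mul, Derivation.leibniz, map_add, smul_eq_mul, smul_eq_mul, map_mul, map_mul,
        hφ, hφ]
      rfl)
  have hδ : δ ⟨L, Algebra.subset_adjoin ⟨⟨L, hLs⟩, rfl⟩⟩ = 1 := by
    change aeval ((↑) : s → ℝ) (pderiv (⟨L, hLs⟩ : s) (φ ⟨L, _⟩)) = 1
    have h1 : φ ⟨L, Algebra.subset_adjoin ⟨⟨L, hLs⟩, rfl⟩⟩ = X ⟨L, hLs⟩ := by
      have h2 : (⟨L, Algebra.subset_adjoin ⟨⟨L, hLs⟩, rfl⟩⟩ : S) =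
          hind.aevalEquiv (X ⟨L, hLs⟩) := by
        apply Subtype.ext
        change L = algebraMap _ ℝ (hind.aevalEquiv (X ⟨L, hLs⟩))
        rw [hind.algebraMap_aevalEquiv, aeval_X]
      rw [h2]
      simp [φ]
    rw [h1, pderiv_X_self, map_one]
  let G := δ.liftKaehlerDifferential
  let G' := G.liftBaseChange ℝ
  let E := KaehlerDifferential.tensorKaehlerEquivOfFormallyEtale k S ℝ
  let D : Derivation k ℝ ℝ := (G' ∘ₗ E.symm.toLinearMap).compDer (KaehlerDifferential.D k ℝ)
  refine ⟨D, ?_⟩
  have h3 : D L = 1 := by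
    change G' (E.symm (KaehlerDifferential.D k ℝ
      (algebraMap S ℝ ⟨L, Algebra.subset_adjoin ⟨⟨L, hLs⟩, rfl⟩⟩))) = 1
    rw [KaehlerDifferential.tensorKaehlerEquivOfFormallyEtale_symm_D_algebraMap]
    rw [LinearMap.liftBaseChange_tmul, one_smul]
    change G (KaehlerDifferential.D k S _) = 1
    rw [Derivation.liftKaehlerDifferential_comp_D]
    exact hδ
  rw [h3]
  exact one_ne_zero

theorem deriv_aeval {d : ℕ} (D : Derivation k ℝ ℝ) (P : MvPolynomial (Fin d) k)
    (x : Fin d → ℝ) : D (aeval x P) = ∑ j, aeval x (pderiv j P) * D (x j) := by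
  induction P using MvPolynomial.induction_on with
  | C a => simp
  | add p q hp hq =>
    simp only [map_add, hp, hq, add_mul, Finset.sum_add_distrib]
  | mul_X p i hp =>
    rw [map_mul, Derivation.leibniz, hp, aeval_X, smul_eq_mul, smul_eq_mul]
    have h1 : ∀ j, aeval x (pderiv j (p * X i)) * D (x j) =
        x i * (aeval x (pderiv j p) * D (x j)) + aeval x p * (if i = j then D (x j) else 0) := by
      intro j
      rw [Derivation.leibniz, map_add, smul_eq_mul, smul_eq_mul, map_mul, map_mul, aeval_X,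
        pderiv_X]
      by_cases hij : i = j
      · subst hij
        simp; ring
      · simp [hij]
        ring
    simp_rw [h1]
    rw [Finset.sum_add_distrib, ← Finset.mul_sum, ← Finset.mul_sum]
    simp
    ring

/-- The total length of a closed orbit with unit speed is algebraic over the field of
definition of the mirrors. -/
theorem length_algebraic {d n : ℕ} (Φ : ℕ → MvPolynomial (Fin d) k)
    (q u : ℕ → Fin d → ℝ) (t : ℕ → ℝ) (hqn : q n = q 0) (hun : u n = u 0)
    (hunit : ∀ i ≤ n, ∑ j, u i j ^ 2 = 1)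
    (hΦ : ∀ i ≤ n, aeval (q i) (Φ i) = 0)
    (hq : ∀ i < n, q (i + 1) = fun j => q i j + t i * u i j)
    (hu : ∀ i < n, u (i + 1) = refl (grad (Φ (i + 1)) (q (i + 1))) (u i)) :
    IsAlgebraic k (∑ i ∈ Finset.range n, t i) := by
  by_contra htr
  obtain ⟨D, hD⟩ := exists_derivation _ htr
  apply hD
  -- velocities are orthogonal to their derivatives
  have h1 : ∀ i ≤ n, ∑ j, u i j * D (u i j) = 0 := by
    intro i hi
    have := congrArg D (hunit i hi)
    rw [map_sum, D.map_one_eq_zero] at this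
    have h2 : ∀ j, D (u i j ^ 2) = 2 * (u i j * D (u i j)) := by
      intro j
      rw [D.leibniz_pow]
      simp
    simp_rw [h2] at this
    rw [← Finset.mul_sum] at this
    linarith
  -- the normal is orthogonal to the motion of the vertex
  have h2 : ∀ i ≤ n, ∑ j, grad (Φ i) (q i) j * D (q i j) = 0 := by
    intro i hi
    have := congrArg D (hΦ i hi)
    rw [deriv_aeval, map_zero] at this
    exact this
  -- derivative of a flight time
  have h3 : ∀ i < n, D (t i) = ∑ j, u i j * D (q (i + 1) j) - ∑ j, u i j * D (q i j) := by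
    intro i hi
    have h4 : ∀ j, D (q (i + 1) j) = D (q i j) + (t i * D (u i j) + u i j * D (t i)) := by
      intro j
      rw [hq i hi, map_add, D.leibniz, smul_eq_mul, smul_eq_mul]
    simp_rw [h4, mul_add, Finset.sum_add_distrib]
    have h5 : ∑ j, u i j * (t i * D (u i j)) = 0 := by
      have : ∀ j, u i j * (t i * D (u i j)) = t i * (u i j * D (u i j)) := fun j => by ring
      simp_rw [this]
      rw [← Finset.mul_sum, h1 i hi.le, mul_zero]
    have h6 : ∑ j, u i j * (u i j * D (t i)) = D (t i) := by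
      have : ∀ j, u i j * (u i j * D (t i)) = u i j ^ 2 * D (t i) := fun j => by ring
      simp_rw [this]
      rw [← Finset.sum_mul, hunit i hi.le, one_mul]
    rw [h5, h6]; ring
  have h4 : ∀ i < n, ∑ j, u i j * D (q (i + 1) j) = ∑ j, u (i + 1) j * D (q (i + 1) j) := by
    intro i hi
    rw [hu i hi]
    unfold refl
    simp_rw [sub_mul, Finset.sum_sub_distrib]
    have : ∑ x, 2 * (∑ j, u i j * grad (Φ (i + 1)) (q (i + 1)) j) /
        (∑ j, grad (Φ (i + 1)) (q (i + 1)) j ^ 2) * grad (Φ (i + 1)) (q (i + 1)) x *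
        D (q (i + 1) x) = 0 := by
      simp_rw [mul_assoc]
      rw [← Finset.mul_sum, h2 (i + 1) hi, mul_zero]
    rw [this, sub_zero]
  rw [map_sum]
  have h5 : ∀ i ∈ Finset.range n, D (t i) = ∑ j, u (i + 1) j * D (q (i + 1) j) -
      ∑ j, u i j * D (q i j) := by
    intro i hi
    have hi' := Finset.mem_range.1 hi
    rw [h3 i hi', h4 i hi']
  rw [Finset.sum_congr rfl h5, Finset.sum_range_sub (fun i => ∑ j, u i j * D (q i j)), hqn, hun,
    sub_self]

end

end H450Al
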