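import Mathlib
import Pool.Agent.H450R2.Al.Local

/-!
The real points of transcendence rank at most `m` over a countable field form a set of Hausdorff
dimension at most `m`.
-/

set_option autoImplicit false

namespace H450Al

open MvPolynomial Set

section
variable {k : Type*} [Field k] [Algebra k ℝ] {ι : Type*} [Fintype ι]

theorem strict_aeval (G : MvPolynomial ι k) (x : ι → ℝ) :
    HasStrictFDerivAt (fun y : ι → ℝ => aeval y G)
      (∑ j, (aeval x (pderiv j G)) • (ContinuousLinearMap.proj j : (ι → ℝ) →L[ℝ] ℝ)) x := by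
  classical
  induction G using MvPolynomial.induction_on with
  | C a =>
    simp only [algHom_C, pderiv_C, map_zero, zero_smul, Finset.sum_const_zero]
    exact hasStrictFDerivAt_const _ _
  | add p q hp hq =>
    have h := hp.add hq
    have e1 : (fun y : ι → ℝ => aeval y (p + q)) = fun y => aeval y p + aeval y q := by
      funext y; rw [map_add]
    rw [e1]
    refine h.congr_fderiv ?_
    rw [← Finset.sum_add_distrib]
    apply Finset.sum_congr rfl
    intro j _
    rw [map_add, map_add, add_smul]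
  | mul_X p i hp =>
    have hX : HasStrictFDerivAt (fun y : ι → ℝ => y i)
        (ContinuousLinearMap.proj i : (ι → ℝ) →L[ℝ] ℝ) x :=
      (ContinuousLinearMap.proj i : (ι → ℝ) →L[ℝ] ℝ).hasStrictFDerivAt
    have h := hp.mul hX
    have e1 : (fun y : ι → ℝ => aeval y (p * X i)) = fun y => aeval y p * y i := by
      funext y; rw [map_mul, aeval_X]
    rw [e1]
    refine h.congr_fderiv ?_
    apply ContinuousLinearMap.ext
    intro v
    simp only [add_apply, smul_apply,
      ContinuousLinearMap.proj_apply, sum_apply, smul_eq_mul,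
      Derivation.leibniz, map_add, map_mul, aeval_X, pderiv_X]
    have h2 : ∀ j, (aeval x p * aeval x (Pi.single (M := fun _ => MvPolynomial ι k) j 1 i) +
        x i * aeval x (pderiv j p)) * v j = aeval x p * (if i = j then v j else 0) +
        x i * (aeval x (pderiv j p) * v j) := by
      intro j
      by_cases hij : i = j
      · subst hij; simp; ring
      · rw [Pi.single_apply, if_neg hij, if_neg hij]; simp; ring
    simp_rw [h2]
    rw [Finset.sum_add_distrib, ← Finset.mul_sum, ← Finset.mul_sum]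
    simp

omit [Fintype ι] in
/-- an algebraic coordinate satisfies an equation with nonzero derivative -/
theorem exists_eq_of_mem_cl (x : ι → ℝ) (J : Set ι)
    (hJ : AlgebraicIndependent k (fun j : J => x j)) (i : ι) (hi : i ∉ J)
    (h : x i ∈ cl k (x '' J)) :
    ∃ G : MvPolynomial ι k, aeval x G = 0 ∧ aeval x (pderiv i G) ≠ 0 ∧
      ∀ l, l ∉ J → l ≠ i → pderiv l G = 0 := by
  classical
  have hchar : CharZero k := by
    have : Function.Injective (algebraMap k ℝ) := (algebraMap k ℝ).injective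
    exact (RingHom.charZero_iff this).2 inferInstance
  set θ : MvPolynomial J k →+* ℝ := (aeval (fun j : J => x j) : MvPolynomial J k →ₐ[k] ℝ).toRingHom
    with hθ
  have hθi : Function.Injective θ := hJ
  -- a nonzero polynomial with root `x i`
  have hex : ∃ p : Polynomial (MvPolynomial J k), p ≠ 0 ∧ Polynomial.eval₂ θ (x i) p = 0 := by
    rw [mem_cl] at h
    obtain ⟨p, hp0, hp⟩ := h
    have hl : ∀ l, ∃ Q : MvPolynomial J k, ((p.coeff l : Algebra.adjoin k (x '' J)) : ℝ) =
        aeval (fun j : J => x j) Q := fun l => exists_lift k x J _ (p.coeff l).2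
    choose Q hQ using hl
    refine ⟨∑ l ∈ Finset.range (p.natDegree + 1), Polynomial.C (Q l) * Polynomial.X ^ l, ?_, ?_⟩
    · intro h0
      have h1 := congrArg (fun r => Polynomial.coeff r p.natDegree) h0
      simp only [Polynomial.finsetSum_coeff, Polynomial.coeff_C_mul_X_pow,
        Polynomial.coeff_zero] at h1
      rw [Finset.sum_ite_eq, if_pos (Finset.mem_range.2 (Nat.lt_succ_self _))] at h1
      have h2 := hQ p.natDegree
      rw [h1, map_zero] at h2
      have h3 : p.leadingCoeff = 0 := Subtype.ext h2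
      exact hp0 (Polynomial.leadingCoeff_eq_zero.1 h3)
    · rw [Polynomial.eval₂_finsetSum]
      rw [Polynomial.aeval_eq_sum_range] at hp
      rw [← hp]
      apply Finset.sum_congr rfl
      intro l _
      rw [Polynomial.eval₂_mul, Polynomial.eval₂_C, Polynomial.eval₂_pow, Polynomial.eval₂_X]
      change aeval (fun j : J => x j) (Q l) * x i ^ l = _
      rw [← hQ]
      rfl
  -- of minimal degree
  let Pr : ℕ → Prop := fun N => ∃ p : Polynomial (MvPolynomial J k), p ≠ 0 ∧
    Polynomial.eval₂ θ (x i) p = 0 ∧ p.natDegree = N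
  have hPr : ∃ N, Pr N := by
    obtain ⟨p, h1, h2⟩ := hex
    exact ⟨_, p, h1, h2, rfl⟩
  obtain ⟨p, hp0, hp, hdeg⟩ := Nat.find_spec hPr
  have hmin : ∀ r : Polynomial (MvPolynomial J k), r ≠ 0 → Polynomial.eval₂ θ (x i) r = 0 →
      p.natDegree ≤ r.natDegree := by
    intro r h1 h2
    rw [hdeg]
    exact Nat.find_min' hPr ⟨r, h1, h2, rfl⟩
  have hpos : p.natDegree ≠ 0 := by
    intro h0
    have h1 := Polynomial.eq_C_of_natDegree_eq_zero h0
    rw [h1, Polynomial.eval₂_C] at hp
    have h2 : p.coeff 0 = 0 := hθi (by rw [hp, map_zero])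
    rw [h2, map_zero] at h1
    exact hp0 h1
  have hder : Polynomial.eval₂ θ (x i) (Polynomial.derivative p) ≠ 0 := by
    intro h0
    have h1 : Polynomial.derivative p ≠ 0 := by
      intro h2
      exact hpos (Polynomial.derivative_eq_zero.1 h2)
    have h3 := hmin _ h1 h0
    have h4 := Polynomial.natDegree_derivative_lt hpos
    omega
  set ρ : MvPolynomial J k →+* MvPolynomial ι k :=
    (rename ((↑) : J → ι) : MvPolynomial J k →ₐ[k] MvPolynomial ι k).toRingHom with hρ
  have hρd : ∀ l, l ∉ J → ∀ a : MvPolynomial J k, pderiv l (ρ a) = 0 := by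
    intro l hl a
    change pderiv l (rename ((↑) : J → ι) a) = 0
    apply pderiv_eq_zero_of_notMem_vars
    intro hmem
    have := vars_rename ((↑) : J → ι) a hmem
    rw [Finset.mem_image] at this
    obtain ⟨b, _, hb⟩ := this
    exact hl (hb ▸ b.2)
  have hev : ∀ r : Polynomial (MvPolynomial J k), aeval x (Polynomial.eval₂ ρ (X i) r) =
      Polynomial.eval₂ θ (x i) r := by
    intro r
    induction r using Polynomial.induction_on' with
    | add a b ha hb => rw [Polynomial.eval₂_add, Polynomial.eval₂_add, map_add, ha, hb]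
    | monomial n a =>
      rw [Polynomial.eval₂_monomial, Polynomial.eval₂_monomial, map_mul, map_pow, aeval_X]
      congr 1
      change aeval x (rename ((↑) : J → ι) a) = aeval (fun j : J => x j) a
      rw [aeval_rename]; rfl
  have hpd : ∀ r : Polynomial (MvPolynomial J k), pderiv i (Polynomial.eval₂ ρ (X i) r) =
      Polynomial.eval₂ ρ (X i) (Polynomial.derivative r) := by
    intro r
    induction r using Polynomial.induction_on' with
    | add a b ha hb => rw [Polynomial.eval₂_add, map_add, map_add, Polynomial.eval₂_add, ha, hb]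
    | monomial n a =>
      rw [Polynomial.eval₂_monomial, Polynomial.derivative_monomial, Polynomial.eval₂_monomial,
        Derivation.leibniz, hρd i hi, Derivation.leibniz_pow, pderiv_X_self, map_mul, map_natCast]
      simp
      ring
  refine ⟨Polynomial.eval₂ ρ (X i) p, ?_, ?_, ?_⟩
  · rw [hev, hp]
  · rw [hpd, hev]; exact hder
  · intro l hl hli
    have : ∀ r : Polynomial (MvPolynomial J k), pderiv l (Polynomial.eval₂ ρ (X i) r) = 0 := by
      intro r
      induction r using Polynomial.induction_on' with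
      | add a b ha hb => rw [Polynomial.eval₂_add, map_add, ha, hb, add_zero]
      | monomial n a =>
        rw [Polynomial.eval₂_monomial, Derivation.leibniz, hρd l hl, Derivation.leibniz_pow,
          pderiv_X_of_ne hli.symm]
        simp
    exact this p

/-- the points with prescribed equations -/
def Zset (J : Set ι) (G : ι → MvPolynomial ι k) : Set (ι → ℝ) :=
  {y | ∀ i, i ∉ J → aeval y (G i) = 0 ∧ aeval y (pderiv i (G i)) ≠ 0}

/-- restriction to the coordinates in `J` -/
def projJ (J : Set ι) (y : ι → ℝ) : J → ℝ := fun j => y j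

omit [Fintype ι] in
theorem coord_le (J : Set ι) [Fintype J] (y y' : ι → ℝ) (j : J) :
    |y j - y' j| ≤ ‖projJ J y - projJ J y'‖ := by
  have h := norm_le_pi_norm (projJ J y - projJ J y') j
  rw [Pi.sub_apply, Real.norm_eq_abs] at h
  exact h

theorem sum_split (J : Set ι) [Fintype J] (i : ι) (hi : i ∉ J) (w : ι → ℝ)
    (hw : ∀ l, l ∉ J → l ≠ i → w l = 0) : ∑ j, w j = w i + ∑ j : J, w j := by
  classical
  have e4 : ∀ j ∈ (Finset.univ : Finset ι), j ∉ insert i (J.toFinset) → w j = 0 := by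
    intro j _ hj
    rw [Finset.mem_insert, Set.mem_toFinset] at hj
    push Not at hj
    exact hw j hj.2 hj.1
  rw [← Finset.sum_subset (Finset.subset_univ (insert i J.toFinset)) e4,
    Finset.sum_insert (by rw [Set.mem_toFinset]; exact hi)]
  congr 1
  exact (Finset.sum_subtype J.toFinset (fun x => Set.mem_toFinset) w)

theorem one_coord (J : Set ι) [Fintype J] (G : ι → MvPolynomial ι k)
    (hG : ∀ i, i ∉ J → ∀ l, l ∉ J → l ≠ i → pderiv l (G i) = 0) (x : ι → ℝ)
    (hx : x ∈ Zset J G) (i : ι) : ∃ B : ℝ, 0 ≤ B ∧ ∀ᶠ p : (ι → ℝ) × (ι → ℝ) in nhds (x, x),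
      p.1 ∈ Zset J G → p.2 ∈ Zset J G →
      |p.1 i - p.2 i| ≤ 1 / 2 * ‖p.1 - p.2‖ + B * ‖projJ J p.1 - projJ J p.2‖ := by
  classical
  by_cases hi : i ∈ J
  · refine ⟨1, zero_le_one, Filter.Eventually.of_forall fun p _ _ => ?_⟩
    have h1 := coord_le J p.1 p.2 ⟨i, hi⟩
    have h2 := norm_nonneg (p.1 - p.2)
    simp only at h1
    linarith
  · obtain ⟨_, ha⟩ := hx i hi
    obtain ⟨a, hadef⟩ : ∃ a : ℝ, a = aeval x (pderiv i (G i)) := ⟨_, rfl⟩
    obtain ⟨B, hB⟩ : ∃ B : ℝ, B = ∑ j : J, |aeval x (pderiv (j : ι) (G i))| := ⟨_, rfl⟩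
    rw [← hadef] at ha
    have hB0 : 0 ≤ B := by rw [hB]; exact Finset.sum_nonneg fun _ _ => abs_nonneg _
    have ha0 : 0 < |a| := abs_pos.2 ha
    refine ⟨B / |a|, by positivity, ?_⟩
    have hst := (strict_aeval (G i) x).isLittleO
    have hev := hst.def (show (0 : ℝ) < |a| / 2 by positivity)
    filter_upwards [hev] with p hp h1 h2
    have e1 := (h1 i hi).1
    have e2 := (h2 i hi).1
    rw [e1, e2, sub_zero, zero_sub, norm_neg] at hp
    have e3 : (∑ j, (aeval x (pderiv j (G i))) • (ContinuousLinearMap.proj j :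
        (ι → ℝ) →L[ℝ] ℝ)) (p.1 - p.2) = a * (p.1 i - p.2 i) +
        ∑ j : J, aeval x (pderiv (j : ι) (G i)) * (p.1 j - p.2 j) := by
      rw [sum_apply, hadef]
      simp only [smul_apply, ContinuousLinearMap.proj_apply, smul_eq_mul, Pi.sub_apply]
      apply sum_split J i hi (fun j => aeval x (pderiv j (G i)) * (p.1 j - p.2 j))
      intro l hl hli
      rw [hG i hi l hl hli, map_zero, zero_mul]
    rw [e3, Real.norm_eq_abs] at hp
    have e5 : |∑ j : J, aeval x (pderiv (j : ι) (G i)) * (p.1 j - p.2 j)| ≤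
        B * ‖projJ J p.1 - projJ J p.2‖ := by
      refine (Finset.abs_sum_le_sum_abs _ _).trans ?_
      rw [hB, Finset.sum_mul]
      apply Finset.sum_le_sum
      intro j _
      rw [abs_mul]
      exact mul_le_mul_of_nonneg_left (coord_le J p.1 p.2 j) (abs_nonneg _)
    have e6 : |a * (p.1 i - p.2 i)| ≤ |a| / 2 * ‖p.1 - p.2‖ +
        B * ‖projJ J p.1 - projJ J p.2‖ := by
      have h3 : a * (p.1 i - p.2 i) = (a * (p.1 i - p.2 i) +
          ∑ j : J, aeval x (pderiv (j : ι) (G i)) * (p.1 j - p.2 j)) -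
          ∑ j : J, aeval x (pderiv (j : ι) (G i)) * (p.1 j - p.2 j) := by ring
      rw [h3]
      exact (abs_sub _ _).trans (add_le_add hp e5)
    rw [abs_mul] at e6
    have e7 : |p.1 i - p.2 i| ≤ (|a| / 2 * ‖p.1 - p.2‖ +
        B * ‖projJ J p.1 - projJ J p.2‖) / |a| := by
      rw [le_div_iff₀ ha0]; linarith
    refine e7.trans (le_of_eq ?_)
    field_simp

theorem antilip_local (J : Set ι) [Fintype J] (G : ι → MvPolynomial ι k)
    (hG : ∀ i, i ∉ J → ∀ l, l ∉ J → l ≠ i → pderiv l (G i) = 0) (x : ι → ℝ)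
    (hx : x ∈ Zset J G) :
    ∃ C : ℝ, 0 ≤ C ∧ ∃ U ∈ nhds x, ∀ y ∈ U ∩ Zset J G, ∀ y' ∈ U ∩ Zset J G,
      ‖y - y'‖ ≤ C * ‖projJ J y - projJ J y'‖ := by
  choose B hB0 hB using one_coord J G hG x hx
  have hC₀0 : 0 ≤ ∑ i, B i := Finset.sum_nonneg fun i _ => hB0 i
  have hall := Filter.eventually_all.2 hB
  rw [nhds_prod_eq] at hall
  obtain ⟨U, hU, hUU⟩ := Filter.mem_prod_self_iff.1 hall
  refine ⟨2 * ∑ i, B i, by positivity, U, hU, ?_⟩
  rintro y ⟨hyU, hy⟩ y' ⟨hyU', hy'⟩
  have h1 : ‖y - y'‖ ≤ 1 / 2 * ‖y - y'‖ + (∑ i, B i) * ‖projJ J y - projJ J y'‖ := by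
    rw [pi_norm_le_iff_of_nonneg (by positivity)]
    intro i
    have h2 := hUU (Set.mk_mem_prod hyU hyU') i hy hy'
    simp only at h2
    rw [Pi.sub_apply, Real.norm_eq_abs]
    refine h2.trans (add_le_add le_rfl ?_)
    exact mul_le_mul_of_nonneg_right
      (Finset.single_le_sum (fun i _ => hB0 i) (Finset.mem_univ i)) (norm_nonneg _)
  linarith

theorem dimH_Zset (J : Set ι) [Fintype J] (G : ι → MvPolynomial ι k)
    (hG : ∀ i, i ∉ J → ∀ l, l ∉ J → l ≠ i → pderiv l (G i) = 0) :
    dimH (Zset J G) ≤ (Fintype.card J : ENNReal) := by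
  by_contra hcon
  rw [not_le] at hcon
  obtain ⟨x, hx, hxx⟩ := exists_mem_nhdsWithin_lt_dimH_of_lt_dimH hcon
  obtain ⟨C, hC, U, hU, hUC⟩ := antilip_local J G hG x hx
  set T : Set (ι → ℝ) := U ∩ Zset J G with hT
  have h1 : (Fintype.card J : ENNReal) < dimH T :=
    hxx T (Filter.inter_mem (mem_nhdsWithin_of_mem_nhds hU) self_mem_nhdsWithin)
  have hanti : AntilipschitzWith ⟨C, hC⟩ (fun y : T => projJ J (y : ι → ℝ)) := by
    apply AntilipschitzWith.of_le_mul_dist
    rintro ⟨y, hy⟩ ⟨y', hy'⟩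
    rw [Subtype.dist_eq, dist_eq_norm, dist_eq_norm]
    exact hUC y hy y' hy'
  have h2 := hanti.le_dimH_image univ
  have h3 : dimH ((fun y : T => projJ J (y : ι → ℝ)) '' univ) ≤ dimH (univ : Set (J → ℝ)) :=
    dimH_mono (subset_univ _)
  rw [Real.dimH_univ_pi] at h3
  have h4 : dimH T = dimH (univ : Set T) := by
    have h5 : Isometry ((↑) : T → (ι → ℝ)) := isometry_subtype_coe
    have := h5.dimH_image (univ : Set T)
    rw [image_univ, Subtype.range_coe] at this
    exact this
  rw [h4] at h1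
  exact absurd (h1.trans_le (h2.trans h3)) (lt_irrefl _)

/-- The points of transcendence rank at most `m` over a countable field have Hausdorff dimension
at most `m`. -/
theorem dimH_low [Countable k] (m : ℕ) :
    dimH {x : ι → ℝ | rk k (range x) ≤ (m : ℕ∞)} ≤ (m : ENNReal) := by
  classical
  let I := {p : Set ι × (ι → MvPolynomial ι k) // p.1.encard ≤ (m : ℕ∞) ∧
    ∀ i, i ∉ p.1 → ∀ l, l ∉ p.1 → l ≠ i → pderiv l (p.2 i) = 0}
  have hcM : Countable (MvPolynomial ι k) :=
    (AddMonoidAlgebra.coeffEquiv (R := k) (M := ι →₀ ℕ)).countable_iff.2 inferInstance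
  have hcI : Countable I := inferInstance
  have hsub : {x : ι → ℝ | rk k (range x) ≤ (m : ℕ∞)} ⊆ ⋃ p : I, Zset p.1.1 p.1.2 := by
    intro x hx
    obtain ⟨J, hJ, hJc, hJr⟩ := exists_basis_index k x
    have hex : ∀ i, ∃ G : MvPolynomial ι k, i ∉ J → (aeval x G = 0 ∧ aeval x (pderiv i G) ≠ 0 ∧
        ∀ l, l ∉ J → l ≠ i → pderiv l G = 0) := by
      intro i
      by_cases hi : i ∈ J
      · exact ⟨0, fun h => absurd hi h⟩
      · obtain ⟨G, hG⟩ := exists_eq_of_mem_cl x J hJ i hi (hJc i)
        exact ⟨G, fun _ => hG⟩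
    choose G hG using hex
    rw [mem_iUnion]
    refine ⟨⟨(J, G), ?_, fun i hi => (hG i hi).2.2⟩, fun i hi => ⟨(hG i hi).1, (hG i hi).2.1⟩⟩
    rw [← hJr]; exact hx
  refine (dimH_mono hsub).trans ?_
  rw [dimH_iUnion]
  apply iSup_le
  rintro ⟨⟨J, G⟩, hJ, hG⟩
  refine (dimH_Zset J G hG).trans ?_
  have h1 : (Fintype.card J : ℕ∞) ≤ m := by
    rw [← Set.toFinset_card, ← Set.encard_eq_coe_toFinset_card]
    exact hJ
  have h2 : Fintype.card J ≤ m := Nat.cast_le.1 h1
  exact_mod_cast h2

end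

end H450Al
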