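import Mathlib
import Pool.Agent.H450R2.Al.Core

/-!
The core theorem: a generic real orbit of noncircular algebraic mirrors whose total length is
algebraic has length zero.
-/

set_option autoImplicit false

namespace H450Al

open MvPolynomial Set

variable {k : Type*} [Field k] [Algebra k ℝ] {m n : ℕ}

omit [Algebra k ℝ] in
theorem lead_zero_of (R : MvPolynomial (Fin (m + 2)) k) (hR : ¬ Dq k (m + 2) ∣ lead R) : R ≠ 0 := by
  rintro rfl
  apply hR
  unfold lead
  simp

theorem core (P Φ : ℕ → MvPolynomial (Fin (m + 2)) k)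
    (q e : ℕ → Fin (m + 2) → ℝ) (s : ℕ → ℝ)
    (hP : ∀ i ≤ n, aeval (q i) (P i) = 0) (hnc : ∀ i ≤ n, ¬ Dq k (m + 2) ∣ lead (P i))
    (hν : ∀ i < n, grad (Φ (i + 1)) (q (i + 1)) ≠ 0)
    (hq : ∀ i < n, q (i + 1) = fun j => q i j + s i * e i j)
    (he : ∀ i < n, e (i + 1) = refl (grad (Φ (i + 1)) (q (i + 1))) (e i))
    (hgen : ((2 * m + 3 : ℕ) : ℕ∞) ≤ rk k (range (q 0) ∪ range (e 0)))
    (hL : IsAlgebraic k ((∑ i, e 0 i ^ 2) * (∑ i ∈ Finset.range n, s i) ^ 2)) :
    (∑ i, e 0 i ^ 2) * (∑ i ∈ Finset.range n, s i) ^ 2 = 0 := by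
  classical
  set S : Set ℝ := range (q 0) ∪ range (fun j : Fin (m + 1) => e 0 j.succ) with hS
  have hrq : rk k (range (q 0)) ≤ ((m + 1 : ℕ) : ℕ∞) :=
    rk_lt_of_relation k (q 0) (P 0) (lead_zero_of _ (hnc 0 (Nat.zero_le _))) (hP 0 (Nat.zero_le _))
  have hre : rk k (range (fun j : Fin (m + 1) => e 0 j.succ)) ≤ ((m + 1 : ℕ) : ℕ∞) := by
    have := rk_range_le k (fun j : Fin (m + 1) => e 0 j.succ)
    simpa using this
  have hrS : rk k S ≤ ((2 * m + 2 : ℕ) : ℕ∞) := by
    refine (rk_union k _ _).trans ((add_le_add hrq hre).trans ?_)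
    norm_cast
    omega
  have hsub : range (q 0) ∪ range (e 0) ⊆ insert (e 0 0) S := by
    rintro _ (⟨j, rfl⟩ | ⟨j, rfl⟩)
    · exact Or.inr (Or.inl ⟨j, rfl⟩)
    · refine Fin.cases (Or.inl rfl) (fun i => ?_) j
      exact Or.inr (Or.inr ⟨i, rfl⟩)
  have h0 : e 0 0 ∉ cl k S := by
    intro h
    have h1 : rk k (range (q 0) ∪ range (e 0)) ≤ rk k S := by
      apply rk_mono
      refine hsub.trans ?_
      rw [insert_subset_iff]
      exact ⟨h, subset_cl k S⟩
    have h2 := hgen.trans (h1.trans hrS)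
    have := Nat.cast_le.1 h2
    omega
  have hrS' : ((2 * m + 2 : ℕ) : ℕ∞) ≤ rk k S := by
    by_contra hcon
    rw [not_le] at hcon
    have h1 := hgen.trans ((rk_mono' k hsub).trans (rk_insert k S (e 0 0)))
    have h2 : rk k S ≤ ((2 * m + 1 : ℕ) : ℕ∞) := by
      have : ((2 * m + 2 : ℕ) : ℕ∞) = ((2 * m + 1 : ℕ) : ℕ∞) + 1 := by norm_cast
      rw [this] at hcon
      exact Order.le_of_lt_add_one hcon
    have h3 : ((2 * m + 3 : ℕ) : ℕ∞) ≤ ((2 * m + 1 + 1 : ℕ) : ℕ∞) := by
      refine h1.trans ?_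
      push_cast
      push_cast at h2
      gcongr
    have := Nat.cast_le.1 h3
    omega
  obtain ⟨B, hFB, h0B, hnu⟩ := exists_place k S (e 0) (fun i => Or.inr ⟨i, rfl⟩) h0
  have hkB : ∀ a : k, algebraMap k ℝ a ∈ B := fun a =>
    hFB _ ((IntermediateField.adjoin k S).algebraMap_mem a)
  let _ : Algebra k B := constAlgebra k B hkB
  have _ : IsScalarTower k B ℝ := constTower k B hkB
  have hSB : ∀ a ∈ S, a ∈ B := fun a ha => hFB a (IntermediateField.subset_adjoin k S ha)
  have hqB : ∀ j, q 0 j ∈ B := fun j => hSB _ (Or.inl ⟨j, rfl⟩)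
  have heB : ∀ j, e 0 j ∈ B := by
    intro j
    refine Fin.cases h0B (fun i => ?_) j
    exact hSB _ (Or.inr ⟨i, rfl⟩)
  set q' : Fin (m + 2) → B := fun j => ⟨q 0 j, hqB j⟩ with hq'
  set e' : Fin (m + 2) → B := fun j => ⟨e 0 j, heB j⟩ with he'
  have hDres : IsLocalRing.residue B (∑ j, e' j ^ 2) = 0 := by
    rw [res_eq_zero_iff, AddSubmonoidClass.coe_finsetSum]
    exact hnu
  have hst : St (k := k) B (q 0) (e 0) q' e' := by
    refine ⟨fun j => rfl, fun j => rfl, ?_, ?_⟩
    · rw [map_sum] at hDres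
      simp only [map_pow] at hDres
      exact hDres
    · set x : Fin (m + 2) ⊕ Fin (m + 1) → B := Sum.elim q' (fun j => e' j.succ) with hx
      have hxr : range (fun i => ((x i : B) : ℝ)) = S := by
        ext a
        constructor
        · rintro ⟨i, rfl⟩
          cases i with
          | inl j => exact Or.inl ⟨j, rfl⟩
          | inr j => exact Or.inr ⟨j, rfl⟩
        · rintro (⟨j, rfl⟩ | ⟨j, rfl⟩)
          · exact ⟨Sum.inl j, rfl⟩
          · exact ⟨Sum.inr j, rfl⟩
      have h1 : rk k (range fun i => ((x i : B) : ℝ)) ≤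
          rk k (range fun i => IsLocalRing.residue B (x i)) := by
        apply rk_le_res B x
        intro Q hQ
        by_contra hne
        rw [res_eq_zero_iff] at hQ
        have hval : ((aeval x Q : B) : ℝ) = aeval (fun i => ((x i : B) : ℝ)) Q :=
          (aeval_coe (k := k) B x Q).symm
        have hmem : ((aeval x Q : B) : ℝ) ∈ IntermediateField.adjoin k S := by
          rw [hval]
          have h2 : aeval (fun i => ((x i : B) : ℝ)) Q ∈
              (aeval (fun i => ((x i : B) : ℝ)) : MvPolynomial _ k →ₐ[k] ℝ).range := ⟨Q, rfl⟩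
          rw [← Algebra.adjoin_range_eq_range_aeval, hxr] at h2
          exact IntermediateField.algebra_adjoin_le_adjoin k S h2
        have hinv : ((aeval x Q : B) : ℝ)⁻¹ ∈ B :=
          hFB _ ((IntermediateField.adjoin k S).inv_mem hmem)
        rw [ValuationSubring.mem_nonunits_iff_exists_mem_maximalIdeal] at hQ
        obtain ⟨hB, hQ⟩ := hQ
        rw [IsLocalRing.mem_maximalIdeal, mem_nonunits_iff] at hQ
        apply hQ
        refine IsUnit.of_mul_eq_one ⟨_, hinv⟩ ?_
        apply Subtype.ext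
        change ((aeval x Q : B) : ℝ) * ((aeval x Q : B) : ℝ)⁻¹ = 1
        apply mul_inv_cancel₀
        rw [hval]; exact hne
      rw [hxr] at h1
      refine hrS'.trans (h1.trans (rk_mono' k ?_))
      rintro _ ⟨i, rfl⟩
      cases i with
      | inl j => exact Or.inl ⟨j, rfl⟩
      | inr j => exact Or.inr ⟨j.succ, rfl⟩
  have hind : ∀ i ≤ n, (∀ j < i, s j ∈ B) ∧ ∃ q' e' : Fin (m + 2) → B,
      St (k := k) B (q i) (e i) q' e' := by
    intro i
    induction i with
    | zero => exact fun _ => ⟨fun j hj => absurd hj (Nat.not_lt_zero j), q', e', hst⟩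
    | succ i ih =>
      intro hi
      obtain ⟨h1, h2⟩ := ih (by omega)
      obtain ⟨h3, h4⟩ := step_lemma B (q i) (e i) (q (i + 1)) (e (i + 1)) (s i) (P i) (P (i + 1))
        (Φ (i + 1)) (hnc i (by omega)) (hP i (by omega)) (hnc (i + 1) hi) (hP (i + 1) hi)
        (hν i (by omega)) (hq i (by omega)) (he i (by omega)) h2
      refine ⟨fun j hj => ?_, h4⟩
      rcases Nat.lt_succ_iff_lt_or_eq.1 hj with h5 | h5
      · exact h1 j h5
      · rw [h5]; exact h3
  have hsB := (hind n le_rfl).1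
  have hsum : (∑ i ∈ Finset.range n, s i) ∈ B :=
    sum_mem fun i hi => hsB i (Finset.mem_range.1 hi)
  by_contra hne
  set y : B := (∑ j, e' j ^ 2) * ⟨_, hsum⟩ ^ 2 with hy
  have hyc : (y : ℝ) = (∑ i, e 0 i ^ 2) * (∑ i ∈ Finset.range n, s i) ^ 2 := by
    rw [hy]
    change ((∑ j, e' j ^ 2 : B) : ℝ) * _ = _
    rw [AddSubmonoidClass.coe_finsetSum]
    rfl
  have hyres : IsLocalRing.residue B y = 0 := by
    rw [hy, map_mul, hDres, zero_mul]
  refine res_ne_zero_of_algebraic (k := k) B y ?_ ?_ hyres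
  · rw [hyc]; exact hL
  · rw [hyc]; exact hne

end H450Al
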