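import Mathlib
import Pool.Agent.H450R2.Al.Main
import Pool.Agent.H450R2.Al.Deriv
import Pool.Agent.H450R2.Al.Local

/-!
A closed billiard orbit with noncircular algebraic mirrors has transcendence rank at most `2d - 3`.
-/

set_option autoImplicit false

namespace H450Al

open MvPolynomial Set

section
variable {k : Type*} [Field k] [Algebra k ℝ] {m n : ℕ}

theorem refl_smul_vec {d : ℕ} (ν e : Fin d → ℝ) (c : ℝ) :
    refl ν (fun j => c * e j) = fun j => c * refl ν e j := by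
  funext j
  unfold refl
  have : ∑ i, c * e i * ν i = c * ∑ i, e i * ν i := by
    rw [Finset.mul_sum]
    exact Finset.sum_congr rfl fun i _ => by ring
  rw [this]; ring

theorem refl_smul_normal {d : ℕ} (ν e : Fin d → ℝ) (c : ℝ) (hc : c ≠ 0) :
    refl (c • ν) e = refl ν e := by
  funext j
  unfold refl
  simp only [Pi.smul_apply, smul_eq_mul]
  have h1 : ∑ i, e i * (c * ν i) = c * ∑ i, e i * ν i := by
    rw [Finset.mul_sum]
    exact Finset.sum_congr rfl fun i _ => by ring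
  have h2 : ∑ i, (c * ν i) ^ 2 = c ^ 2 * ∑ i, ν i ^ 2 := by
    rw [Finset.mul_sum]
    exact Finset.sum_congr rfl fun i _ => by ring
  rw [h1, h2]
  by_cases h0 : ∑ i, ν i ^ 2 = 0
  · rw [h0]; simp
  · field_simp

theorem sq_sum_ne {d : ℕ} (ν : Fin d → ℝ) (h : ν ≠ 0) : ∑ j, ν j ^ 2 ≠ 0 := by
  intro h0
  apply h
  funext j
  have := (Finset.sum_eq_zero_iff_of_nonneg (fun i _ => sq_nonneg (ν i))).1 h0 j (Finset.mem_univ j)
  exact pow_eq_zero_iff two_ne_zero |>.1 this

theorem countable_cl [Countable k] {ι : Type*} [Finite ι] (x : ι → ℝ) :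
    (cl k (range x)).Countable := by
  have hcM : Countable (MvPolynomial ι k) :=
    (AddMonoidAlgebra.coeffEquiv (R := k) (M := ι →₀ ℕ)).countable_iff.2 inferInstance
  have h1 : Countable (Algebra.adjoin k (range x)) := by
    have h2 : (Algebra.adjoin k (range x) : Set ℝ) =
        range (aeval x : MvPolynomial ι k →ₐ[k] ℝ) := by
      rw [Algebra.adjoin_range_eq_range_aeval]
      rfl
    have h3 : (Algebra.adjoin k (range x) : Set ℝ).Countable := by
      rw [h2]; exact countable_range _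
    exact h3.to_subtype
  have h2 : cl k (range x) = {a : ℝ | IsAlgebraic (Algebra.adjoin k (range x)) a} := by
    ext a; exact mem_cl k
  rw [h2]
  exact Algebraic.countable _ _

/-- one real step: the rank is propagated and a polynomial normal exists at the next vertex -/
theorem real_normal (P : MvPolynomial (Fin (m + 2)) k) (hl : ¬ Dq k (m + 2) ∣ lead P)
    (q ν : Fin (m + 2) → ℝ) (hP : aeval q P = 0) (hrk : ((m + 1 : ℕ) : ℕ∞) ≤ rk k (range q))
    (hpar : ∀ Φ : MvPolynomial (Fin (m + 2)) k, aeval q Φ = 0 →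
      (∀ᶠ y in nhds q, aeval y P = 0 → aeval y Φ = 0) → ∃ c : ℝ, grad Φ q = c • ν) :
    ∃ Φ : MvPolynomial (Fin (m + 2)) k, aeval q Φ = 0 ∧ grad Φ q ≠ 0 ∧
      ∀ e, refl ν e = refl (grad Φ q) e := by
  obtain ⟨Φ, h1, ⟨j, hj⟩, h3⟩ := exists_local_eq q hrk P (lead_zero_of P hl) hP
  have hg : grad Φ q ≠ 0 := fun h0 => hj (congrFun h0 j)
  obtain ⟨c, hc⟩ := hpar Φ h1 h3
  have hc0 : c ≠ 0 := by
    rintro rfl
    rw [zero_smul] at hc
    exact hg hc
  refine ⟨Φ, h1, hg, fun e => ?_⟩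
  rw [hc, refl_smul_normal ν e c hc0]

theorem rk_pos_ge (q e : Fin (m + 2) → ℝ)
    (h : ((2 * m + 3 : ℕ) : ℕ∞) ≤ rk k (range q ∪ range e)) :
    ((m + 1 : ℕ) : ℕ∞) ≤ rk k (range q) := by
  by_contra hcon
  rw [not_le] at hcon
  have h1 : rk k (range q) ≤ (m : ℕ∞) := by
    push_cast at hcon
    exact Order.le_of_lt_add_one hcon
  have h2 : rk k (range e) ≤ ((m + 2 : ℕ) : ℕ∞) := by
    have := rk_range_le k e
    simpa using this
  have h3 : ((2 * m + 3 : ℕ) : ℕ∞) ≤ ((m + (m + 2) : ℕ) : ℕ∞) := by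
    refine (h.trans (rk_union k _ _)).trans ?_
    push_cast
    push_cast at h2
    exact add_le_add h1 h2
  have := Nat.cast_le.1 h3
  omega

theorem lead_ne_real (P R : MvPolynomial (Fin (m + 2)) k) (hP0 : P ≠ 0) (hR : lead R ≠ 0)
    (q e : Fin (m + 2) → ℝ) (hP : aeval q P = 0)
    (h : ((2 * m + 3 : ℕ) : ℕ∞) ≤ rk k (range q ∪ range e)) : aeval e (lead R) ≠ 0 := by
  intro h0
  have h1 := rk_lt_of_relation k e (lead R) hR h0
  have h2 := rk_lt_of_relation k q P hP0 hP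
  have h3 : ((2 * m + 3 : ℕ) : ℕ∞) ≤ (((m + 1) + (m + 1) : ℕ) : ℕ∞) := by
    refine (h.trans (rk_union k _ _)).trans ?_
    push_cast
    push_cast at h1 h2
    exact add_le_add h2 h1
  have := Nat.cast_le.1 h3
  omega

theorem real_step (P P₁ : MvPolynomial (Fin (m + 2)) k) (hl : ¬ Dq k (m + 2) ∣ lead P)
    (hl₁ : ¬ Dq k (m + 2) ∣ lead P₁)
    (q e q₁ e₁ ν₁ : Fin (m + 2) → ℝ) (s : ℝ) (hP : aeval q P = 0) (hP₁ : aeval q₁ P₁ = 0)
    (h : ((2 * m + 3 : ℕ) : ℕ∞) ≤ rk k (range q ∪ range e))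
    (hq : q₁ = fun j => q j + s * e j) (he : e₁ = refl ν₁ e)
    (hpar : ∀ Φ : MvPolynomial (Fin (m + 2)) k, aeval q₁ Φ = 0 →
      (∀ᶠ y in nhds q₁, aeval y P₁ = 0 → aeval y Φ = 0) → ∃ c : ℝ, grad Φ q₁ = c • ν₁) :
    ((2 * m + 3 : ℕ) : ℕ∞) ≤ rk k (range q₁ ∪ range e₁) := by
  have hlead : aeval e (lead P) ≠ 0 := by
    apply lead_ne_real P P (lead_zero_of P hl) ?_ q e hP h
    intro h0
    rw [h0] at hl
    exact hl (dvd_zero _)
  have hs : s ∈ cl k (range q₁ ∪ range e) := by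
    have h1 := root_algebraic k P q₁ e (-s) (by
      rw [← hP, hq]
      congr 1
      congr 1
      funext j
      ring) hlead
    have := (clAlg k (range q₁ ∪ range e)).neg_mem h1
    rwa [neg_neg] at this
  have h2 : ((2 * m + 3 : ℕ) : ℕ∞) ≤ rk k (range q₁ ∪ range e) := by
    refine h.trans (rk_mono k ?_)
    rintro _ (⟨j, rfl⟩ | ⟨j, rfl⟩)
    · have h1 : q j = q₁ j - s * e j := by rw [hq]; ring
      rw [h1]
      exact (clAlg k (range q₁ ∪ range e)).sub_mem
        (subset_cl k _ (Or.inl (mem_range_self j)))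
        ((clAlg k (range q₁ ∪ range e)).mul_mem hs (subset_cl k _ (Or.inr (mem_range_self j))))
    · exact subset_cl k _ (Or.inr (mem_range_self j))
  obtain ⟨Φ, hΦ, hg, hr⟩ := real_normal P₁ hl₁ q₁ ν₁ hP₁ (rk_pos_ge q₁ e h2) hpar
  refine h2.trans (rk_mono k ?_)
  have hgcl : ∀ j, grad Φ q₁ j ∈ cl k (range q₁ ∪ range e₁) := by
    intro j
    have h3 : ∀ i, q₁ i ∈ cl k (range q₁ ∪ range e₁) := fun i =>
      subset_cl k _ (Or.inl (mem_range_self i))
    exact aeval_mem_cl k h3 _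
  rintro _ (⟨j, rfl⟩ | ⟨j, rfl⟩)
  · exact subset_cl k _ (Or.inl (mem_range_self j))
  · have h4 : e = refl (grad Φ q₁) e₁ := by
      rw [he, hr, refl_refl _ _ (sq_sum_ne _ hg)]
    have h5 : ∀ i, e₁ i ∈ cl k (range q₁ ∪ range e₁) := fun i =>
      subset_cl k _ (Or.inr (mem_range_self i))
    have h6 := refl_mem_cl k hgcl h5 j
    rw [← h4] at h6
    exact h6

/-- **The algebraic theorem.** -/
theorem orbit_rank [Countable k] (hn : 1 ≤ n)
    (P : ℕ → MvPolynomial (Fin (m + 2)) k) (q u ν : ℕ → Fin (m + 2) → ℝ) (t : ℕ → ℝ)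
    (hqn : q n = q 0) (hun : u n = u 0) (hunit : ∑ j, u 0 j ^ 2 = 1)
    (hP : ∀ i ≤ n, aeval (q i) (P i) = 0) (hnc : ∀ i ≤ n, ¬ Dq k (m + 2) ∣ lead (P i))
    (hν : ∀ i ≤ n, ν i ≠ 0)
    (hpar : ∀ i ≤ n, ∀ Φ : MvPolynomial (Fin (m + 2)) k, aeval (q i) Φ = 0 →
      (∀ᶠ y in nhds (q i), aeval y (P i) = 0 → aeval y Φ = 0) → ∃ c : ℝ, grad Φ (q i) = c • ν i)
    (hq : ∀ i < n, q (i + 1) = fun j => q i j + t i * u i j)
    (hu : ∀ i < n, u (i + 1) = refl (ν (i + 1)) (u i))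
    (ht : ∀ i < n, 0 < t i) :
    rk k (range (q 0) ∪ range (u 0)) ≤ ((2 * m + 1 : ℕ) : ℕ∞) := by
  classical
  by_contra hcon
  rw [not_le] at hcon
  have hgen0 : ((2 * m + 2 : ℕ) : ℕ∞) ≤ rk k (range (q 0) ∪ range (u 0)) := by
    have : ((2 * m + 2 : ℕ) : ℕ∞) = ((2 * m + 1 : ℕ) : ℕ∞) + 1 := by norm_cast
    rw [this]
    exact Order.add_one_le_of_lt hcon
  -- a transcendental scale
  obtain ⟨lam, hlam⟩ : ∃ lam : ℝ, lam ∉ cl k (range (q 0) ∪ range (u 0)) := by
    have h1 : (cl k (range (q 0) ∪ range (u 0))).Countable := by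
      have h2 : range (q 0) ∪ range (u 0) = range (Sum.elim (q 0) (u 0)) := by
        rw [Set.Sum.elim_range]
      rw [h2]
      exact countable_cl _
    by_contra hall
    push Not at hall
    have h3 : cl k (range (q 0) ∪ range (u 0)) = univ := eq_univ_of_forall hall
    rw [h3] at h1
    exact Set.not_countable_univ h1
  have hlam0 : lam ≠ 0 := by
    rintro rfl
    exact hlam (clAlg k _).zero_mem
  set e : ℕ → Fin (m + 2) → ℝ := fun i j => lam * u i j with he
  set s : ℕ → ℝ := fun i => t i / lam with hs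
  have hse : ∀ i < n, q (i + 1) = fun j => q i j + s i * e i j := by
    intro i hi
    rw [hq i hi]
    funext j
    simp only [hs, he]
    field_simp
  have hee : ∀ i < n, e (i + 1) = refl (ν (i + 1)) (e i) := by
    intro i hi
    simp only [he]
    rw [refl_smul_vec, hu i hi]
  have hunits : ∀ i ≤ n, ∑ j, u i j ^ 2 = 1 := by
    intro i
    induction i with
    | zero => intro _; exact hunit
    | succ i ih =>
      intro hi
      rw [hu i (by omega), refl_sq _ _ (sq_sum_ne _ (hν (i + 1) hi))]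
      exact ih (by omega)
  have hgen : ((2 * m + 3 : ℕ) : ℕ∞) ≤ rk k (range (q 0) ∪ range (e 0)) := by
    have h1 := rk_insert_eq k _ _ hlam
    have h2 : ((2 * m + 3 : ℕ) : ℕ∞) ≤ rk k (insert lam (range (q 0) ∪ range (u 0))) := by
      rw [h1]
      have : ((2 * m + 3 : ℕ) : ℕ∞) = ((2 * m + 2 : ℕ) : ℕ∞) + 1 := by norm_cast
      rw [this]
      gcongr
    refine h2.trans (rk_mono k ?_)
    have hecl : ∀ j, e 0 j ∈ clAlg k (range (q 0) ∪ range (e 0)) := fun j =>
      subset_cl k _ (Or.inr (mem_range_self j))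
    have hlamcl : lam ∈ cl k (range (q 0) ∪ range (e 0)) := by
      have h3 : lam ^ 2 ∈ cl k (range (q 0) ∪ range (e 0)) := by
        have h4 : lam ^ 2 = ∑ j, e 0 j ^ 2 := by
          simp only [he, mul_pow]
          rw [← Finset.mul_sum, hunit, mul_one]
        rw [h4]
        exact (clAlg k _).sum_mem fun j _ => pow_mem (hecl j) 2
      rw [mem_cl] at h3 ⊢
      exact h3.of_pow (by norm_num)
    rw [insert_subset_iff]
    refine ⟨hlamcl, ?_⟩
    rintro _ (⟨j, rfl⟩ | ⟨j, rfl⟩)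
    · exact subset_cl k _ (Or.inl (mem_range_self j))
    · have h5 : u 0 j = e 0 j * lam⁻¹ := by
        simp only [he]
        field_simp
      rw [h5]
      exact (clAlg k _).mul_mem (hecl j) (inv_mem_cl k hlamcl)
  have hRG : ∀ i ≤ n, ((2 * m + 3 : ℕ) : ℕ∞) ≤ rk k (range (q i) ∪ range (e i)) := by
    intro i
    induction i with
    | zero => intro _; exact hgen
    | succ i ih =>
      intro hi
      exact real_step (P i) (P (i + 1)) (hnc i (by omega)) (hnc (i + 1) hi) (q i) (e i)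
        (q (i + 1)) (e (i + 1)) (ν (i + 1)) (s i) (hP i (by omega)) (hP (i + 1) hi)
        (ih (by omega)) (hse i (by omega)) (hee i (by omega)) (hpar (i + 1) hi)
  have hΦex : ∀ i, ∃ Φ : MvPolynomial (Fin (m + 2)) k, i ≤ n → (aeval (q i) Φ = 0 ∧
      grad Φ (q i) ≠ 0 ∧ ∀ e, refl (ν i) e = refl (grad Φ (q i)) e) := by
    intro i
    by_cases hi : i ≤ n
    · obtain ⟨Φ, h1⟩ := real_normal (P i) (hnc i hi) (q i) (ν i) (hP i hi)
        (rk_pos_ge (q i) (e i) (hRG i hi)) (hpar i hi)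
      exact ⟨Φ, fun _ => h1⟩
    · exact ⟨0, fun h => absurd h hi⟩
  choose Φ hΦ using hΦex
  have halg : IsAlgebraic k (∑ i ∈ Finset.range n, t i) := by
    apply length_algebraic Φ q u t hqn hun hunits (fun i hi => (hΦ i hi).1) hq
    intro i hi
    rw [hu i hi]
    exact (hΦ (i + 1) hi).2.2 _
  have hsum : (∑ i, e 0 i ^ 2) * (∑ i ∈ Finset.range n, s i) ^ 2 =
      (∑ i ∈ Finset.range n, t i) ^ 2 := by
    have h1 : ∑ i, e 0 i ^ 2 = lam ^ 2 := by
      simp only [he, mul_pow]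
      rw [← Finset.mul_sum, hunit, mul_one]
    have h2 : ∑ i ∈ Finset.range n, s i = (∑ i ∈ Finset.range n, t i) / lam := by
      rw [Finset.sum_div]
    rw [h1, h2]
    field_simp
  have hcore := core (n := n) P Φ q e s hP hnc (fun i hi => (hΦ (i + 1) hi).2.1) hse
    (fun i hi => by rw [hee i hi]; exact (hΦ (i + 1) hi).2.2 _) hgen (by
      rw [hsum]; exact halg.pow 2)
  rw [hsum] at hcore
  have hpos : 0 < ∑ i ∈ Finset.range n, t i := by
    apply Finset.sum_pos
    · intro i hi; exact ht i (Finset.mem_range.1 hi)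
    · exact ⟨0, Finset.mem_range.2 (by omega)⟩
  have := pow_pos hpos 2
  rw [hcore] at this
  exact lt_irrefl _ this

end

end H450Al
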