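import Mathlib
import Pool.Agent.H450R2.Al.Orbit
import Pool.Agent.H450R2.Al.Dim
import Pool.Agent.H450R2.Sp.Table

/-!
Closed billiard orbits bouncing at noncircular algebraic boundary points.
-/

set_option autoImplicit false

namespace H450Al

open MvPolynomial Set H450Sp

noncomputable section

section descend
variable {k : Type*} [Field k] [Algebra k ℝ] {d : ℕ}

theorem map_hom (P : MvPolynomial (Fin d) k) (j : ℕ) :
    map (algebraMap k ℝ) (homogeneousComponent j P) =
      homogeneousComponent j (map (algebraMap k ℝ) P) := by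
  ext s
  rw [coeff_map, coeff_homogeneousComponent, coeff_homogeneousComponent, coeff_map]
  split_ifs with h
  · rfl
  · rw [map_zero]

theorem deg_map (P : MvPolynomial (Fin d) k) :
    (map (algebraMap k ℝ) P).totalDegree = P.totalDegree := by
  unfold totalDegree
  rw [support_map_of_injective _ (algebraMap k ℝ).injective]

theorem descend_lead (P : MvPolynomial (Fin d) k)
    (h : ¬ (∑ i, X i ^ 2 : MvPolynomial (Fin d) ℝ) ∣
      homogeneousComponent (map (algebraMap k ℝ) P).totalDegree (map (algebraMap k ℝ) P)) :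
    ¬ Dq k d ∣ lead P := by
  rintro ⟨Q, hQ⟩
  apply h
  refine ⟨map (algebraMap k ℝ) Q, ?_⟩
  rw [deg_map, ← map_hom]
  have : map (algebraMap k ℝ) (lead P) = map (algebraMap k ℝ) (Dq k d * Q) := by rw [hQ]
  unfold lead at this
  rw [this, map_mul]
  congr 1
  unfold Dq
  rw [map_sum]
  apply Finset.sum_congr rfl
  intro i _
  rw [map_pow, map_X]

theorem eval_map_aeval (P : MvPolynomial (Fin d) k) (x : Fin d → ℝ) :
    eval x (map (algebraMap k ℝ) P) = aeval x P := by
  rw [eval_map, aeval_def]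

end descend

variable {m : ℕ}

/-- the polynomial vanishes on the zero set of `f` in `B` -/
def Fits (f : EE m → ℝ) (P : MvPolynomial (Fin (m + 2)) ℝ) (B : Set (EE m)) : Prop :=
  ¬ (∑ i, X i ^ 2) ∣ homogeneousComponent P.totalDegree P ∧
    ∀ y ∈ B, f y = 0 → eval y.ofLp P = 0

theorem grad_inner (f : EE m → ℝ) (x τ : EE m) : fderiv ℝ f x τ = inner ℝ (gradient f x) τ := by
  unfold gradient
  rw [InnerProductSpace.toDual_symm_apply]

section par
variable {k : Type*} [Field k] [Algebra k ℝ]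

theorem fderiv_poly (Φ : MvPolynomial (Fin (m + 2)) k) (x τ : EE m) :
    ContDiffAt ℝ 1 (fun y : EE m => aeval y.ofLp Φ) x ∧
    fderiv ℝ (fun y : EE m => aeval y.ofLp Φ) x τ = ∑ j, grad Φ x.ofLp j * τ.ofLp j := by
  have hL : HasStrictFDerivAt (fun y : EE m => y.ofLp)
      ((EuclideanSpace.equiv (Fin (m + 2)) ℝ : EE m ≃L[ℝ] (Fin (m + 2) → ℝ)) :
        EE m →L[ℝ] (Fin (m + 2) → ℝ)) x :=
    ((EuclideanSpace.equiv (Fin (m + 2)) ℝ : EE m ≃L[ℝ] (Fin (m + 2) → ℝ)) :
        EE m →L[ℝ] (Fin (m + 2) → ℝ)).hasStrictFDerivAt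
  have h1 := (strict_aeval Φ x.ofLp).comp x hL
  constructor
  · have hc : ContDiff ℝ 1 (fun y : EE m => aeval y.ofLp Φ) := by
      induction Φ using MvPolynomial.induction_on with
      | C a => simp only [algHom_C]; exact contDiff_const
      | add p q hp hq =>
        simp only [map_add]
        exact (hp ((strict_aeval p x.ofLp).comp x hL)).add (hq ((strict_aeval q x.ofLp).comp x hL))
      | mul_X p i hp =>
        simp only [map_mul, aeval_X]
        refine (hp ((strict_aeval p x.ofLp).comp x hL)).mul ?_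
        exact ((contDiff_apply ℝ ℝ i).comp
          ((EuclideanSpace.equiv (Fin (m + 2)) ℝ : EE m ≃L[ℝ] (Fin (m + 2) → ℝ)).contDiff))
    exact hc.contDiffAt
  · have h2 := h1.hasFDerivAt.fderiv
    have h3 : fderiv ℝ (fun y : EE m => aeval y.ofLp Φ) x = _ := h2
    rw [h3]
    simp only [ContinuousLinearMap.comp_apply, _root_.sum_apply, _root_.smul_apply,
      ContinuousLinearMap.proj_apply, smul_eq_mul]
    rfl

theorem par_normal (f : EE m → ℝ) (B : Set (EE m)) (hB : IsOpen B)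
    (P Φ : MvPolynomial (Fin (m + 2)) k) (hP : ∀ y ∈ B, f y = 0 → aeval y.ofLp P = 0)
    (x : EE m) (hx : x ∈ B) (hfx : f x = 0) (hf : ContDiffAt ℝ 1 f x)
    (hg : gradient f x ≠ 0)
    (h : ∀ᶠ y in nhds x.ofLp, aeval y P = 0 → aeval y Φ = 0) :
    ∃ c : ℝ, grad Φ x.ofLp = c • (gradient f x).ofLp := by
  have hfd : fderiv ℝ f x ≠ 0 := by
    intro h0
    apply hg
    unfold gradient
    rw [h0, map_zero]
  have hcont : Continuous (fun y : EE m => y.ofLp) :=
    (EuclideanSpace.equiv (Fin (m + 2)) ℝ : EE m ≃L[ℝ] (Fin (m + 2) → ℝ)).continuous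
  have hev : ∀ᶠ y in nhds x, f y = 0 → aeval y.ofLp Φ = 0 := by
    have h1 : ∀ᶠ y : EE m in nhds x, aeval y.ofLp P = 0 → aeval y.ofLp Φ = 0 :=
      (hcont.tendsto x).eventually h
    filter_upwards [h1, hB.mem_nhds hx] with y hy hyB hfy
    exact hy (hP y hyB hfy)
  obtain ⟨c, hc⟩ := parallel_deriv f (fun y : EE m => aeval y.ofLp Φ) x hf
    (fderiv_poly Φ x 0).1 hfx hfd hev
  refine ⟨c, ?_⟩
  funext j
  have h2 := (fderiv_poly Φ x (EuclideanSpace.single j 1)).2
  rw [hc] at h2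
  have h3 : (c • fderiv ℝ f x) (EuclideanSpace.single j 1) =
      c * inner ℝ (gradient f x) (EuclideanSpace.single j 1) := by
    rw [← grad_inner]; rfl
  rw [h3] at h2
  have h4 : inner ℝ (gradient f x) (EuclideanSpace.single j 1) = (gradient f x).ofLp j := by
    rw [EuclideanSpace.inner_single_right, one_mul]
    rfl
  rw [h4] at h2
  have h5 : ∑ i, grad Φ x.ofLp i * (EuclideanSpace.single j (1 : ℝ) : EE m).ofLp i =
      grad Φ x.ofLp j := by
    simp
  rw [h5] at h2
  rw [Pi.smul_apply, smul_eq_mul, h2]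

end par

/-- The phase points of closed orbits whose bounces are at noncircular algebraic points form a set
of Hausdorff dimension at most `2 d - 3`. -/
theorem dim_orbits (f : EE m → ℝ) (S : Set (EE m × EE m))
    (hS : ∀ q ∈ S, ‖q.2‖ = 1 ∧ ∃ n : ℕ, 1 ≤ n ∧ ∃ p u : ℕ → EE m,
      p 0 = q.1 ∧ u 0 = q.2 ∧ p n = q.1 ∧ u n = q.2 ∧
      (∀ i ≤ n, f (p i) = 0 ∧ gradient f (p i) ≠ 0 ∧ ContDiffAt ℝ 1 f (p i) ∧
        ∃ P : MvPolynomial (Fin (m + 2)) ℝ,
          ¬ (∑ i, X i ^ 2) ∣ homogeneousComponent P.totalDegree P ∧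
          ∀ᶠ y : EE m in nhds (p i), f y = 0 → eval y.ofLp P = 0) ∧
      ∀ i < n, (∃ t : ℝ, 0 < t ∧ p (i + 1) = p i + t • u i) ∧
        u (i + 1) = u i - (2 * inner ℝ (u i) (gradient f (p (i + 1))) /
                ‖gradient f (p (i + 1))‖ ^ 2) • gradient f (p (i + 1))) :
    dimH S ≤ ((2 * m + 1 : ℕ) : ENNReal) := by
  classical
  set 𝓑 := TopologicalSpace.countableBasis (EE m) with h𝓑
  have hcount : Countable {B : Set (EE m) // B ∈ 𝓑 ∧ ∃ P, Fits f P B} := by
    have h1 : Countable 𝓑 := (TopologicalSpace.countable_countableBasis (EE m)).to_subtype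
    exact Function.Injective.countable (f := fun B : {B : Set (EE m) // B ∈ 𝓑 ∧ ∃ P, Fits f P B} =>
      (⟨B.1, B.2.1⟩ : 𝓑)) (fun a b hab => Subtype.ext (congrArg (fun z : 𝓑 => z.1) hab))
  set ι := {B : Set (EE m) // B ∈ 𝓑 ∧ ∃ P, Fits f P B} with hι
  set PR : ι → MvPolynomial (Fin (m + 2)) ℝ := fun B => B.2.2.choose with hPR
  have hPf : ∀ B : ι, Fits f (PR B) B.1 := fun B => B.2.2.choose_spec
  have hopen : ∀ B : ι, IsOpen B.1 := fun B =>
    (TopologicalSpace.isBasis_countableBasis (EE m)).isOpen B.2.1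
  -- the field of constants
  set C : Set ℝ := ⋃ B : ι, ((PR B).coeffs : Set ℝ) with hC
  have hCc : C.Countable := countable_iUnion fun B => (PR B).coeffs.countable_toSet
  set k : Subfield ℝ := Subfield.closure C with hk
  have hkc : Countable k := by
    have h1 := Subfield.cardinalMk_closure_le_max C
    rw [← Cardinal.mk_le_aleph0_iff]
    refine h1.trans ?_
    rw [max_eq_right]
    exact Cardinal.mk_le_aleph0_iff.2 hCc.to_subtype
  have hdesc : ∀ B : ι, ∃ P : MvPolynomial (Fin (m + 2)) k, map (algebraMap k ℝ) P = PR B := by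
    intro B
    have h1 : PR B ∈ Set.range (map (algebraMap k ℝ) :
        MvPolynomial (Fin (m + 2)) k →+* MvPolynomial (Fin (m + 2)) ℝ) := by
      have h2 := (MvPolynomial.mem_range_map_iff_coeffs_subset (f := algebraMap k ℝ)
        (x := PR B)).2 (by
          intro a ha
          have h3 : a ∈ k := Subfield.subset_closure (mem_iUnion.2 ⟨B, ha⟩)
          exact ⟨⟨a, h3⟩, rfl⟩)
      exact h2
    exact h1
  choose P hPmap using hdesc
  have hlead : ∀ B : ι, ¬ Dq k (m + 2) ∣ lead (P B) := by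
    intro B
    apply descend_lead
    rw [hPmap]
    exact (hPf B).1
  have hvan : ∀ B : ι, ∀ y ∈ B.1, f y = 0 → aeval y.ofLp (P B) = 0 := by
    intro B y hy hfy
    rw [← eval_map_aeval, hPmap]
    exact (hPf B).2 y hy hfy
  -- the target
  set T : Set (Fin (m + 2) ⊕ Fin (m + 2) → ℝ) := {x | rk k (range x) ≤ ((2 * m + 1 : ℕ) : ℕ∞)}
    with hT
  have hdT : dimH T ≤ ((2 * m + 1 : ℕ) : ENNReal) := dimH_low (2 * m + 1)
  set ψ : (Fin (m + 2) ⊕ Fin (m + 2) → ℝ) → EE m × EE m := fun x =>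
    (WithLp.toLp 2 (fun i => x (Sum.inl i)), WithLp.toLp 2 (fun i => x (Sum.inr i))) with hψ
  have hψc : ContDiff ℝ 1 ψ := by
    apply ContDiff.prodMk
    · exact ((EuclideanSpace.equiv (Fin (m + 2)) ℝ).symm.contDiff).comp
        (contDiff_pi.2 fun i => contDiff_apply ℝ ℝ (Sum.inl i))
    · exact ((EuclideanSpace.equiv (Fin (m + 2)) ℝ).symm.contDiff).comp
        (contDiff_pi.2 fun i => contDiff_apply ℝ ℝ (Sum.inr i))
  have hdim : dimH (ψ '' T) ≤ ((2 * m + 1 : ℕ) : ENNReal) := ((hψc.contDiffOn.dimH_image_le convex_univ (subset_univ T))).trans hdT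
  refine (dimH_mono ?_).trans hdim
  rintro ⟨q, v⟩ hq
  obtain ⟨hv, n, hn, p, u, hp0, hu0, hpn, hun, hdata, hstep⟩ := hS _ hq
  simp only at hv hp0 hu0 hpn hun
  refine ⟨Sum.elim q.ofLp v.ofLp, ?_, rfl⟩
  have box : ∀ i, ∃ B : ι, i ≤ n → p i ∈ B.1 := by
    intro i
    by_cases hi : i ≤ n
    · obtain ⟨_, _, _, Q, hQ1, hQ2⟩ := hdata i hi
      obtain ⟨B, hB, hxB, hsub⟩ :=
        (TopologicalSpace.isBasis_countableBasis (EE m)).mem_nhds_iff.1 hQ2
      exact ⟨⟨B, hB, Q, hQ1, fun y hy => hsub hy⟩, fun _ => hxB⟩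
    · obtain ⟨_, _, _, Q, hQ1, hQ2⟩ := hdata 0 (by omega)
      obtain ⟨B, hB, hxB, hsub⟩ :=
        (TopologicalSpace.isBasis_countableBasis (EE m)).mem_nhds_iff.1 hQ2
      exact ⟨⟨B, hB, Q, hQ1, fun y hy => hsub hy⟩, fun h => absurd h hi⟩
  choose B hB using box
  choose! t ht using fun i (hi : i < n) => (hstep i hi).1
  change rk k (range (Sum.elim q.ofLp v.ofLp)) ≤ ((2 * m + 1 : ℕ) : ℕ∞)
  rw [Set.Sum.elim_range]
  have key := orbit_rank (k := k) (m := m) (n := n) hn (fun i => P (B i)) (fun i => (p i).ofLp)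
    (fun i => (u i).ofLp) (fun i => (gradient f (p i)).ofLp) t (by simp only [hpn, hp0])
    (by simp only [hun, hu0]) (by
      have h1 : ∑ j, (v.ofLp j) ^ 2 = ‖v‖ ^ 2 := by
        rw [EuclideanSpace.norm_sq_eq]
        apply Finset.sum_congr rfl
        intro j _
        rw [Real.norm_eq_abs, sq_abs]
      simp only [hu0]
      rw [h1, hv]; norm_num)
    (fun i hi => hvan (B i) (p i) (hB i hi) (hdata i hi).1)
    (fun i _ => hlead (B i))
    (fun i hi h0 => (hdata i hi).2.1 (by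
      have : gradient f (p i) = WithLp.toLp 2 (gradient f (p i)).ofLp := rfl
      rw [this, h0]; rfl))
    (fun i hi Φ _ h => par_normal f (B i).1 (hopen (B i)) (P (B i)) Φ (hvan (B i)) (p i) (hB i hi)
      (hdata i hi).1 (hdata i hi).2.2.1 (hdata i hi).2.1 h)
    (fun i hi => by
      simp only
      rw [(ht i hi).2]
      funext j
      rfl)
    (fun i hi => by
      simp only
      rw [(hstep i hi).2]
      funext j
      have h1 : inner ℝ (u i) (gradient f (p (i + 1))) =
          ∑ j, (u i).ofLp j * (gradient f (p (i + 1))).ofLp j := by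
        rw [inner_dot]; rfl
      have h2 : ‖gradient f (p (i + 1))‖ ^ 2 = ∑ j, (gradient f (p (i + 1))).ofLp j ^ 2 := by
        rw [EuclideanSpace.norm_sq_eq]
        apply Finset.sum_congr rfl
        intro j _
        rw [Real.norm_eq_abs, sq_abs]
      unfold refl
      rw [← h1, ← h2]
      rfl)
    (fun i hi => (ht i hi).1)
  simp only [hp0, hu0] at key
  exact key

end

end H450Al
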